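import Pool.Agent.Lib.PolF.Cnd

/-!
# Bas: the relations `Le e γ` are preorders
-/

set_option autoImplicit false
set_option linter.unusedSectionVars false
universe u

namespace Pool.Agent.PolF

open Cardinal

variable {K Γ L : Type u} [LinearOrder K] [WellFoundedLT K] [LinearOrder Γ] [WellFoundedLT Γ]
  [LinearOrder L] [WellFoundedLT L]

theorem TpE_refl (t : Tp K) : TpE t t := ⟨le_refl _, fun _ _ => rfl⟩

theorem TpE_trans {a b c : Tp K} (h : TpE a b) (h' : TpE b c) : TpE a c :=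
  ⟨h'.1.trans h.1, fun x hx => (h.2 x (hx.trans h'.1)).trans (h'.2 x hx)⟩

theorem Mem_down {P X : Type u} {le : P → P → Prop} (ht : ∀ p q r, le p q → le q r → le p r)
    {A : X → Set P} {x : X} {p q : P} (h : le q p) (hm : Mem le A x p) : Mem le A x q :=
  fun r hr => hm r (ht _ _ _ hr h)

theorem Neg_down {P : Type u} {le : P → P → Prop} (ht : ∀ p q r, le p q → le q r → le p r)
    {φ : P → Prop} {p q : P} (h : le q p) (hm : Neg le φ p) : Neg le φ q :=
  fun r hr => hm r (ht _ _ _ hr h)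

theorem Imp_down {P : Type u} {le : P → P → Prop} (ht : ∀ p q r, le p q → le q r → le p r)
    {φ ψ : P → Prop} {p q : P} (h : le q p) (hm : Imp le φ ψ p) : Imp le φ ψ q :=
  fun r hr => hm r (ht _ _ _ hr h)

theorem Exi_down {P ι : Type u} {le : P → P → Prop} (ht : ∀ p q r, le p q → le q r → le p r)
    {φ : ι → P → Prop} {p q : P} (h : le q p) (hm : Exi le φ p) : Exi le φ q :=
  fun r hr => hm r (ht _ _ _ hr h)

theorem Mem_loc {P X : Type u} {le : P → P → Prop} (ht : ∀ p q r, le p q → le q r → le p r)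
    (hr : ∀ p, le p p) {A : X → Set P} {x : X} {p : P}
    (h : ∀ q, le q p → ∃ r, le r q ∧ Mem le A x r) : Mem le A x p := by
  intro q hq
  obtain ⟨r, hrq, hm⟩ := h q hq
  obtain ⟨s, hs, a, ha, hsa⟩ := hm r (hr r)
  exact ⟨s, ht _ _ _ hs hrq, a, ha, hsa⟩

/-- a condition either has an extension forcing `x ∈ A` or forces the negation -/
theorem Mem_dec {P X : Type u} {le : P → P → Prop} (A : X → Set P) (x : X) (p : P) :
    (∃ q, le q p ∧ Mem le A x q) ∨ Neg le (Mem le A x) p := by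
  by_cases h : ∃ q, le q p ∧ Mem le A x q
  · exact Or.inl h
  · exact Or.inr fun q hq hm => h ⟨q, hq, hm⟩

theorem Le_refl (e : L → K → Set (Cd K Γ L)) (γ : Γ) (p : Cd K Γ L) : Le e γ p p := by
  rw [Le_iff]
  exact ⟨TpE_refl _, fun _ _ _ h => h, fun _ _ _ h => h, fun _ _ _ _ h h' => absurd h h'⟩

theorem Le_mono {e : L → K → Set (Cd K Γ L)} {β γ : Γ} (h : β ≤ γ) {q p : Cd K Γ L}
    (hl : Le e γ q p) : Le e β q p := by
  rw [Le_iff] at hl ⊢
  exact ⟨hl.1, fun i ξ hi => hl.2.1 i ξ (hi.trans_le h), fun i a hi => hl.2.2.1 i a (hi.trans_le h),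
    fun i hi => hl.2.2.2 i (hi.trans_le h)⟩

theorem Le_trans {e : L → K → Set (Cd K Γ L)} (γ : Γ) :
    ∀ p q r : Cd K Γ L, Le e γ p q → Le e γ q r → Le e γ p r := by
  induction γ using WellFoundedLT.induction with
  | ind γ ih =>
  intro p q r hpq hqr
  have h1 := (Le_iff e γ p q).1 hpq
  have h2 := (Le_iff e γ q r).1 hqr
  rw [Le_iff]
  refine ⟨TpE_trans h1.1 h2.1, fun i ξ hi h => h1.2.1 i ξ hi (h2.2.1 i ξ hi h),
    fun i a hi h => h1.2.2.1 i a hi (h2.2.2.1 i a hi h), fun i hi ξ a hp hr ha hv => ?_⟩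
  by_cases hq : (i, ξ) ∈ q.s
  · exact Mem_down (ih i.1 hi) (Le_mono hi.le hpq) (h2.2.2.2 i hi ξ a hq hr ha hv)
  · exact h1.2.2.2 i hi ξ a hp hq (h2.2.2.1 i a hi ha) hv

theorem LeT_refl (e : L → K → Set (Cd K Γ L)) (p : Cd K Γ L) : LeT e p p :=
  fun γ => Le_refl e γ p

theorem LeT_trans (e : L → K → Set (Cd K Γ L)) :
    ∀ p q r : Cd K Γ L, LeT e p q → LeT e q r → LeT e p r :=
  fun p q r h h' γ => Le_trans γ p q r (h γ) (h' γ)

theorem Le_tp {e : L → K → Set (Cd K Γ L)} {γ : Γ} {q p : Cd K Γ L} (h : Le e γ q p) :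
    TpE q.t p.t := ((Le_iff e γ q p).1 h).1

theorem Rle_refl {le : Cd K Γ L → Cd K Γ L → Prop} (h : ∀ p, le p p) (r : Rd K Γ L) :
    Rle le r r := ⟨h _, fun _ _ => rfl⟩

theorem Rle_trans {le : Cd K Γ L → Cd K Γ L → Prop} (h : ∀ p q r, le p q → le q r → le p r)
    (htp : ∀ p q, le p q → TpE p.t q.t) :
    ∀ p q r : Rd K Γ L, Rle le p q → Rle le q r → Rle le p r :=
  fun p q r h1 h2 => ⟨h _ _ _ h1.1 h2.1, fun x hx =>
    (h1.2 x (hx.trans_le (htp _ _ h2.1).1)).trans (h2.2 x hx)⟩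

end Pool.Agent.PolF
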