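import Mathlib

/-!
# Forcing relation over a preordered set

`P` is a set of conditions, `le q p` means that `q` is stronger than `p`. A statement about the
generic extension is represented by the set of conditions forcing it; a name for a subset of a
ground model set `X` is a function `X → Set P` (a nice name).
-/

set_option autoImplicit false
universe u

namespace Pool.Agent.PolF

open Cardinal

section forcing
variable {P : Type u} (le : P → P → Prop)

/-- `p ⊩ x ∈ A` -/
def Mem {X : Type u} (A : X → Set P) (x : X) (p : P) : Prop :=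
  ∀ q, le q p → ∃ r, le r q ∧ ∃ a ∈ A x, le r a

/-- `p ⊩ ¬ φ` -/
def Neg (φ : P → Prop) (p : P) : Prop := ∀ q, le q p → ¬ φ q

/-- `p ⊩ φ → ψ` -/
def Imp (φ ψ : P → Prop) (p : P) : Prop := ∀ q, le q p → φ q → ψ q

/-- `p ⊩ φ ↔ ψ` -/
def Iff' (φ ψ : P → Prop) (p : P) : Prop := ∀ q, le q p → (φ q ↔ ψ q)

/-- `p ⊩ ∃ i, φ i` -/
def Exi {ι : Type u} (φ : ι → P → Prop) (p : P) : Prop := ∀ q, le q p → ∃ r, le r q ∧ ∃ i, φ i r

/-- `p ⊩ A is unbounded` -/
def Unb {K : Type u} [LinearOrder K] (A : K → Set P) (p : P) : Prop :=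
  ∀ b : K, Exi le (fun x : {x : K // b < x} => Mem le A x.1) p

/-- every directed set of fewer than `κ` conditions has a lower bound -/
def DirCl (κ : Cardinal.{u}) : Prop :=
  ∀ D : Set P, D.Nonempty → #D < κ → (∀ p ∈ D, ∀ q ∈ D, ∃ r ∈ D, le r p ∧ le r q) →
    ∃ r, ∀ d ∈ D, le r d

/-- the name of the complement of `A` -/
def Cmpl {X : Type u} (A : X → Set P) (x : X) : Set P := {p | Neg le (Mem le A x) p}

/-- `U A p` is read as `p ⊩ A ∈ U`: the function `U` is a name of an ultrafilter on `K`, closed under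
intersections of fewer than `#K` sets, all of whose members are unbounded -/
structure IsUF {K : Type u} [LinearOrder K] (U : (K → Set P) → P → Prop) : Prop where
  down : ∀ A p q, le q p → U A p → U A q
  loc : ∀ A p, (∀ q, le q p → ∃ r, le r q ∧ U A r) → U A p
  up : ∀ A B p, U A p → (∀ x, Imp le (Mem le A x) (Mem le B x) p) → U B p
  ultra : ∀ A p, ∃ q, le q p ∧ (U A q ∨ U (Cmpl le A) q)
  inter : ∀ (ι : Type u), #ι < #K → ∀ (A : ι → K → Set P) p, (∀ i, U (A i) p) →
    U (fun x => {r | ∀ i, Mem le (A i) x r}) p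
  unb : ∀ A p, U A p → Unb le A p

/-! ### the statements about the generic extension -/

/-- `⊩ K is regular`: every function from a proper initial segment of `K` to `K` is bounded -/
def FReg (K : Type u) [LinearOrder K] : Prop :=
  ∀ (t : K) (f : K × K → Set P) (p : P),
    (∀ i < t, Exi le (fun x => Mem le f (i, x)) p) →
    (∀ i < t, ∀ x y, x ≠ y → Neg le (fun q => Mem le f (i, x) q ∧ Mem le f (i, y) q) p) →
    Exi le (fun b q => ∀ i < t, ∀ x, b ≤ x → Neg le (Mem le f (i, x)) q) p

/-- `⊩ K is a strong limit`: a `K`-sequence of subsets of a proper initial segment of `K` is not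
injective -/
def FStr (K : Type u) [LinearOrder K] : Prop :=
  ∀ (t : K) (g : K × K → Set P) (p : P),
    Exi le (fun (c : {c : K × K // c.1 < c.2}) q =>
      ∀ i < t, Iff' le (Mem le g (c.1.1, i)) (Mem le g (c.1.2, i)) q) p

/-- `⊩ K is not weakly compact`: some colouring of the pairs has no unbounded homogeneous set -/
def FNwc (K : Type u) [LinearOrder K] : Prop :=
  ∃ e : K × K → Set P, ∀ (H : K → Set P) (p : P),
    ¬ (Unb le H p ∧ ∀ a b, a < b → Imp le (fun q => Mem le H a q ∧ Mem le H b q) (Mem le e (a, b)) p) ∧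
    ¬ (Unb le H p ∧ ∀ a b, a < b →
      Imp le (fun q => Mem le H a q ∧ Mem le H b q) (Neg le (Mem le e (a, b))) p)

/-- `⊩ 2 ^ K = L`: there are an `L`-sequence of distinct subsets of `K`, and an `L`-sequence of all
subsets of `K` -/
def FPow (K L : Type u) : Prop :=
  (∃ x : L × K → Set P, ∀ a b, a ≠ b → ∀ p,
    Exi le (fun i => Neg le (Iff' le (Mem le x (a, i)) (Mem le x (b, i)))) p) ∧
  ∃ y : L × K → Set P, ∀ (S : K → Set P) (p : P),
    Exi le (fun a q => ∀ i, Iff' le (Mem le S i) (Mem le y (a, i)) q) p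

/-- `⊩ (L, K) → (L, K)` for two colours: for every colouring of `L × K` there are unbounded sets
`A` in `L` and `B` in `K` with the colouring constant on `A × B` -/
def FPol (K L : Type u) [LinearOrder K] [LinearOrder L] : Prop :=
  ∀ (c : L × K → Set P) (p : P), ∃ q, le q p ∧ ∃ (A : L → Set P) (B : K → Set P),
    Unb le A q ∧ Unb le B q ∧
    ((∀ a b, Imp le (fun r => Mem le A a r ∧ Mem le B b r) (Mem le c (a, b)) q) ∨
      (∀ a b, Imp le (fun r => Mem le A a r ∧ Mem le B b r) (Neg le (Mem le c (a, b))) q))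

end forcing

/-- Laver's property: every preorder in which directed sets of fewer than `κ` elements have lower
bounds forces that there is an ultrafilter on `κ`, closed under intersections of fewer than `κ` sets,
with all members unbounded -/
def Indestr (κ : Cardinal.{u}) : Prop :=
  ∀ (R : Type u) (le : R → R → Prop), Nonempty R → (∀ p, le p p) →
    (∀ p q r, le p q → le q r → le p r) → DirCl le κ →
    ∃ U : (κ.ord.ToType → Set R) → R → Prop, IsUF le U

end Pool.Agent.PolF
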