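import Pool.Agent.Lib.PolF.Crk

/-!
# Crd: the number of conditions and of small names

PROOF. `#(Tp K) ≤ #K * 2 ^ (#K * #K) = 2 ^ #K ≤ #L`; `Co K Γ L × K` and `Co K Γ L × L` have at most
`#L` elements (`#(K → Bool) = 2 ^ #K ≤ #Γ < #L`); the number of subsets with at most `#K` elements of a set
with at most `#L` elements is at most `#L ^ #K ≤ #L ^ (2 ^ #K) = #L`
(`Cardinal.mk_bounded_set_le`). The small names: subsets of `Cd` with at most `2 ^ #K` elements: at most
`max #L ℵ₀ ^ (2 ^ #K) = #L`; functions from `K` to it: `#L ^ #K = #L`. A nonempty type with at most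
`#L` elements is the image of `L`.
-/

set_option autoImplicit false
set_option linter.unusedSectionVars false
universe u

namespace Pool.Agent.PolF

open Cardinal

variable {K Γ L : Type u} [LinearOrder K] [WellFoundedLT K] [LinearOrder Γ] [WellFoundedLT Γ]
  [LinearOrder L] [WellFoundedLT L]

private theorem two_le_L (hB : Big K Γ L) : 2 ^ #K ≤ #L := hB.kg.trans hB.gl.le

private theorem K_le_two : #K ≤ 2 ^ #K := (Cardinal.cantor _).le

private theorem inf_L (hK : InO K) (hB : Big K Γ L) : ℵ₀ ≤ #L :=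
  (hK.unc.le.trans K_le_two).trans (two_le_L hB)

private theorem pow_le_L (hB : Big K Γ L) {c d : Cardinal.{u}} (hc : c ≤ #L) (hd : d ≤ 2 ^ #K)
    : c ^ d ≤ #L := by
  have h0 : (#L : Cardinal.{u}) ≠ 0 := by
    intro h
    have := hB.gl
    rw [h] at this
    exact absurd this (not_lt.2 bot_le)
  calc c ^ d ≤ #L ^ d := Cardinal.power_le_power_right hc
    _ ≤ #L ^ (2 ^ #K : Cardinal.{u}) := Cardinal.power_le_power_left h0 hd
    _ = #L := hB.lpow

private theorem card_sub (hK : InO K) (hB : Big K Γ L) {X : Type u} (hX : #X ≤ #L)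
    (c : Cardinal.{u}) (hc : c ≤ 2 ^ #K) : #{s : Set X // #s ≤ c} ≤ #L :=
  (Cardinal.mk_bounded_set_le X c).trans (pow_le_L hB (max_le hX (inf_L hK hB)) hc)

private theorem card_Co (hK : InO K) (hB : Big K Γ L) : #(Co K Γ L) ≤ #L := by
  have h1 := inf_L hK hB
  have hKL : #K ≤ #L := K_le_two.trans (two_le_L hB)
  have h2 : #(K → Bool) ≤ #L := by
    have : #(K → Bool) = 2 ^ #K := by simp
    rw [this]
    exact two_le_L hB
  have h3 : #(Nd K) ≤ #L := by
    rw [Cardinal.mk_prod, Cardinal.lift_id, Cardinal.lift_id]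
    exact Cardinal.mul_le_of_le h1 hKL h2
  have h4 : #(Nd K × L) ≤ #L := by
    rw [Cardinal.mk_prod, Cardinal.lift_id, Cardinal.lift_id]
    exact Cardinal.mul_le_of_le h1 h3 le_rfl
  rw [Cardinal.mk_prod, Cardinal.lift_id, Cardinal.lift_id]
  exact Cardinal.mul_le_of_le h1 hB.gl.le h4

theorem card_Cd (hK : InO K) (hB : Big K Γ L) : #(Cd K Γ L) ≤ #L := by
  have h1 := inf_L hK hB
  have hKL : #K ≤ #L := K_le_two.trans (two_le_L hB)
  have hCK : #(Co K Γ L × K) ≤ #L := by
    rw [Cardinal.mk_prod, Cardinal.lift_id, Cardinal.lift_id]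
    exact Cardinal.mul_le_of_le h1 (card_Co hK hB) hKL
  have hCL : #(Co K Γ L × L) ≤ #L := by
    rw [Cardinal.mk_prod, Cardinal.lift_id, Cardinal.lift_id]
    exact Cardinal.mul_le_of_le h1 (card_Co hK hB) le_rfl
  have hinj : Function.Injective (fun p : Cd K Γ L =>
      (p.t, ((⟨p.s, p.hs.le⟩ : {s : Set (Co K Γ L × K) // #s ≤ #K}),
        (⟨p.f, p.hf.le⟩ : {s : Set (Co K Γ L × L) // #s ≤ #K})))) := by
    intro p q h
    rcases p with ⟨pt, ps, pf, h1, h2⟩
    rcases q with ⟨qt, qs, qf, h3, h4⟩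
    simp only [Prod.mk.injEq, Subtype.mk.injEq] at h
    obtain ⟨rfl, rfl, rfl⟩ := h
    rfl
  refine (Cardinal.mk_le_of_injective hinj).trans ?_
  rw [Cardinal.mk_prod, Cardinal.lift_id, Cardinal.lift_id, Cardinal.mk_prod, Cardinal.lift_id,
    Cardinal.lift_id]
  exact Cardinal.mul_le_of_le h1 (hK.card_Tp.trans (two_le_L hB))
    (Cardinal.mul_le_of_le h1 (card_sub hK hB hCK _ K_le_two) (card_sub hK hB hCL _ K_le_two))

theorem enu_ex (hK : InO K) (hB : Big K Γ L) : ∃ e : L → K → Set (Cd K Γ L), Enu e := by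
  classical
  let N : Type u := {A : K → Set (Cd K Γ L) // ∀ ξ, #(A ξ) ≤ 2 ^ #K}
  have hN : #N ≤ #L := by
    have hinj : Function.Injective (fun (A : N) (ξ : K) =>
        (⟨A.1 ξ, A.2 ξ⟩ : {s : Set (Cd K Γ L) // #s ≤ 2 ^ #K})) := by
      intro A B h
      refine Subtype.ext (funext fun ξ => ?_)
      exact congrArg Subtype.val (congrFun h ξ)
    refine (Cardinal.mk_le_of_injective hinj).trans ?_
    have h1 : #(K → {s : Set (Cd K Γ L) // #s ≤ 2 ^ #K}) =
        #{s : Set (Cd K Γ L) // #s ≤ 2 ^ #K} ^ #K := by simp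
    rw [h1]
    exact pow_le_L hB (card_sub hK hB (card_Cd hK hB) _ le_rfl) K_le_two
  have hne : Nonempty N := ⟨⟨fun _ => ∅, fun _ => by simp⟩⟩
  obtain ⟨g⟩ := Cardinal.le_def N L |>.1 hN
  refine ⟨fun a => (Function.invFun g a).1, fun A hA => ⟨g ⟨A, hA⟩, ?_⟩⟩
  simp only
  rw [Function.leftInverse_invFun g.injective]

end Pool.Agent.PolF
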