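import Pool.Agent.Lib.PolF.Cnd

/-!
# Crk: cardinal arithmetic of the well order `K`

PROOF. `InO.reg`: `ℵ₀ ≤ #K` and `#K ≤ (#K).ord.cof`: otherwise `K` would be a union of fewer than
`#K` sets of size less than `#K`; it may be easier to go through a cofinal subset: use
`Cardinal.le_cof_iff`-type lemmas, or prove: let `c = (#K).ord.cof < #K`; `K` has order type `≥ (#K).ord` and all
`#(Iio b) < #K`, so `Ordinal.type (· < ·) = (#K).ord`; a cofinal subset of size `c` contradicts `hK.bdd`.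
`union_lt`: `Cardinal.mk_union_le`, `Cardinal.add_lt_of_lt`. `bUnion_lt`: regularity.
`card_Tp`: inject in `K × (K → K → Bool)`. `tiny`: `Cardinal.mk_bounded_set_le` or: such a set is empty or the range of a function
`K → X`; `(2 ^ #K) ^ #K = 2 ^ #K`. `seg`: `hK.pow` gives `succ c ≤ 2 ^ c < #K`; if all initial segments had size
`≤ c` then `#K ≤ succ c` (the order type of `K` would be at most the ordinal of `succ c`); or take
an injection of a set of size `succ c` in `K`, bounded by some `t` (`hK.bdd`). `sup`: the range of `h` is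
countable, so bounded (`hK.unc`, `hK.bdd`); take the least strict upper bound (`WellFounded.min`).
-/

set_option autoImplicit false
set_option linter.unusedSectionVars false
universe u

namespace Pool.Agent.PolF

open Cardinal

variable {K Γ L : Type u} [LinearOrder K] [WellFoundedLT K] [LinearOrder Γ] [WellFoundedLT Γ]
  [LinearOrder L] [WellFoundedLT L]

/-- `#K` is regular -/
theorem InO.reg (hK : InO K) : (#K).IsRegular := by
  refine ⟨hK.unc.le, ?_⟩
  have h1 : (#K).ord = Ordinal.type (α := K) (· < ·) := by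
    refine le_antisymm (Cardinal.ord_le_type _) ?_
    refine le_of_forall_lt fun o ho => ?_
    obtain ⟨b, rfl⟩ := Ordinal.typein_surj (α := K) (· < ·) ho
    rw [Cardinal.lt_ord, Ordinal.card_typein]
    exact hK.iio b
  rw [h1, Ordinal.cof_type, Order.le_cof_iff]
  intro S hS
  by_contra hlt
  obtain ⟨b, hb⟩ := hK.bdd S (not_le.1 hlt)
  obtain ⟨c, hc, hbc⟩ := hS b
  exact absurd (hb c hc) (not_lt.2 hbc)

theorem InO.union_lt (hK : InO K) {X : Type u} {s t : Set X} (hs : #s < #K) (ht : #t < #K) :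
    #(s ∪ t : Set X) < #K := by
  exact (Cardinal.mk_union_le s t).trans_lt (Cardinal.add_lt_of_lt hK.unc.le hs ht)

theorem InO.bUnion_lt (hK : InO K) {ι X : Type u} (hι : #ι < #K) {s : ι → Set X}
    (hs : ∀ i, #(s i) < #K) : #(⋃ i, s i : Set X) < #K := by
  exact (card_iUnion_lt_iff_forall_of_isRegular hK.reg hι).2 hs

/-- the number of subsets of `X` with fewer than `#K` elements -/
theorem InO.tiny (hK : InO K) (X : Type u) (hX : #X ≤ 2 ^ #K) :
    #{s : Set X // #s < #K} ≤ 2 ^ #K := by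
  have h0 : (ℵ₀ : Cardinal.{u}) ≤ 2 ^ #K := hK.unc.le.trans (Cardinal.cantor #K).le
  have h1 : #{s : Set X // #s < #K} ≤ #{s : Set X // #s ≤ #K} :=
    Cardinal.mk_subtype_mono fun s hs => hs.le
  refine h1.trans ((Cardinal.mk_bounded_set_le X #K).trans ?_)
  calc (max #X ℵ₀) ^ #K ≤ (2 ^ #K) ^ #K := Cardinal.power_le_power_right (max_le hX h0)
    _ = 2 ^ #K := by rw [← Cardinal.power_mul, Cardinal.mul_eq_self hK.unc.le]

/-- the number of coherent sequences -/
theorem InO.card_Tp (hK : InO K) : #(Tp K) ≤ 2 ^ #K := by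
  have h0 : (ℵ₀ : Cardinal.{u}) ≤ 2 ^ #K := hK.unc.le.trans (Cardinal.cantor #K).le
  have h1 : Function.Injective fun t : Tp K => (t.ht, t.x) := by
    rintro ⟨a, x, ha⟩ ⟨b, y, hb⟩ h
    simp only [Prod.mk.injEq] at h
    obtain ⟨rfl, rfl⟩ := h
    rfl
  refine (Cardinal.mk_le_of_injective h1).trans ?_
  have h2 : #(K → K → Bool) = 2 ^ #K := by
    have h3 : #(K → Bool) = 2 ^ #K := by
      simp
    rw [← Cardinal.power_def, h3, ← Cardinal.power_mul, Cardinal.mul_eq_self hK.unc.le]
  rw [Cardinal.mk_prod, Cardinal.lift_id, Cardinal.lift_id, h2]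
  exact (mul_le_mul' (Cardinal.cantor #K).le le_rfl).trans (Cardinal.mul_eq_self h0).le

/-- initial segments of all sizes -/
theorem InO.seg (hK : InO K) (c : Cardinal.{u}) (hc : c < #K) : ∃ t : K, c < #(Set.Iio t) := by
  have h1 : Order.succ c ≤ #K := (Order.succ_le_of_lt (Cardinal.cantor c)).trans (hK.pow c hc).le
  have h2 : Order.succ c < #K := (Order.succ_le_of_lt (Cardinal.cantor c)).trans_lt (hK.pow c hc)
  obtain ⟨S, hS⟩ := Cardinal.le_mk_iff_exists_set.1 h1
  obtain ⟨t, ht⟩ := hK.bdd S (hS ▸ h2)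
  refine ⟨t, (Order.lt_succ c).trans_le ?_⟩
  rw [← hS]
  exact Cardinal.mk_le_mk_of_subset fun s hs => ht s hs

/-- the supremum of an increasing sequence -/
theorem InO.sup (hK : InO K) (h : ℕ → K) (hh : ∀ n, h n < h (n + 1)) :
    ∃ a, LimK a ∧ (∀ n, h n < a) ∧ ∀ x < a, ∃ n, x < h n := by
  have hc : #(Set.range (h ∘ ULift.down : ULift.{u} ℕ → K)) < #K := by
    refine Cardinal.mk_range_le.trans_lt ?_
    rw [Cardinal.mk_uLift, Cardinal.mk_nat, Cardinal.lift_aleph0]
    exact hK.unc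
  obtain ⟨b, hb⟩ := hK.bdd _ hc
  have hne : {a : K | ∀ n, h n < a}.Nonempty := ⟨b, fun n => hb _ ⟨⟨n⟩, rfl⟩⟩
  have hwf : WellFounded ((· < ·) : K → K → Prop) := wellFounded_lt
  have hmem : ∀ n, h n < hwf.min _ hne := hwf.min_mem _ hne
  have hx : ∀ x < hwf.min _ hne, ∃ n, x < h n := by
    intro x hx
    by_contra hcon
    simp only [not_exists, not_lt] at hcon
    have hm : x ∈ {a : K | ∀ n, h n < a} := fun n => (hh n).trans_le (hcon (n + 1))
    exact hwf.not_lt_min _ hm hx
  exact ⟨hwf.min _ hne, ⟨⟨h 0, hmem 0⟩, fun x hxa => by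
    obtain ⟨n, hn⟩ := hx x hxa
    exact ⟨h n, hn, hmem n⟩⟩, hmem, hx⟩

end Pool.Agent.PolF
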