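import Pool.Agent.Lib.PolF.Dis
import Pool.Agent.Lib.PolF.Crk

/-!
# Fnw: the generic coherent sequence gives a colouring without homogeneous sets

`c (a, b) = {p | a < b ∧ b ≤ p.t.ht ∧ p.t.x b a = true}`. For an unbounded `H` construct `r n : Rd`, `h n : K`
with `r (n+1) ≤ r n`, `(r n).p.t.ht < h n < (r (n+1)).p.t.ht`, `Mem H (h n) (r (n+1)).p` and
`(r (n+1)).F (h n) = (n is even)`; take a lower bound `m`, `a = sup h` and `b > a` in `H`: the sequence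
at `b` agrees below `a` with `m.F` modulo a bounded set.
-/

set_option autoImplicit false
set_option linter.unusedSectionVars false
universe u

namespace Pool.Agent.PolF

open Cardinal

variable {K Γ L : Type u} [LinearOrder K] [WellFoundedLT K] [LinearOrder Γ] [WellFoundedLT Γ]
  [LinearOrder L] [WellFoundedLT L]

/-- the colouring -/
private def fnwCol (K Γ L : Type u) [LinearOrder K] [WellFoundedLT K] [LinearOrder Γ]
    [WellFoundedLT Γ] [LinearOrder L] [WellFoundedLT L] (ab : K × K) : Set (Cd K Γ L) :=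
  {p | ab.1 < ab.2 ∧ ab.2 ≤ p.t.ht ∧ p.t.x ab.2 ab.1 = true}

private theorem fnw_tp [Nonempty Γ] {e : L → K → Set (Cd K Γ L)} {q p : Cd K Γ L}
    (h : LeT e q p) : TpE q.t p.t := Le_tp (h (Classical.arbitrary Γ))

private theorem fnw_true [Nonempty Γ] (e : L → K → Set (Cd K Γ L)) {r : Cd K Γ L} {a b : K}
    (hab : a < b) (hb : b ≤ r.t.ht) (h : r.t.x b a = true) :
    Mem (LeT e) (fnwCol K Γ L) (a, b) r := by
  intro q hq
  have ht := fnw_tp hq
  exact ⟨q, LeT_refl e q, q, ⟨hab, hb.trans ht.1, by rw [ht.2 b hb]; exact h⟩, LeT_refl e q⟩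

private theorem fnw_false [Nonempty Γ] (e : L → K → Set (Cd K Γ L)) {r : Cd K Γ L} {a b : K}
    (hb : b ≤ r.t.ht) (h : r.t.x b a = false) :
    Neg (LeT e) (Mem (LeT e) (fnwCol K Γ L) (a, b)) r := by
  intro q hq hm
  obtain ⟨s, hs, a', ha', hsa⟩ := hm q (LeT_refl e q)
  have h1 := fnw_tp hsa
  have h2 := fnw_tp (LeT_trans e _ _ _ hs hq)
  have h3 : s.t.x b a = true := by
    rw [h1.2 b ha'.2.1]
    exact ha'.2.2
  rw [h2.2 b hb, h] at h3
  exact Bool.false_ne_true h3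

private theorem fnw_main (hK : InO K) [Nonempty Γ] (e : L → K → Set (Cd K Γ L))
    (H : K → Set (Cd K Γ L)) (p : Cd K Γ L) (hU : Unb (LeT e) H p) :
    ∃ (a a' b : K) (r : Cd K Γ L), a < b ∧ a' < b ∧ LeT e r p ∧ Mem (LeT e) H a r ∧
      Mem (LeT e) H a' r ∧ Mem (LeT e) H b r ∧ b ≤ r.t.ht ∧ r.t.x b a = true ∧
      r.t.x b a' = false := by
  have htr := LeT_trans e
  have step : ∀ (r : {r : Rd K Γ L // LeT e r.p p}) (v : Bool),
      ∃ (r' : {r : Rd K Γ L // LeT e r.p p}) (y : K), Rle (LeT e) r'.1 r.1 ∧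
        r.1.p.t.ht < y ∧ y < r'.1.p.t.ht ∧ Mem (LeT e) H y r'.1.p ∧ r'.1.F y = v := by
    rintro ⟨r, hr⟩ v
    obtain ⟨q, hq, ⟨y, hy⟩, hm⟩ := hU r.p.t.ht r.p hr
    obtain ⟨b', hb'⟩ := hK.bdd {y} (by
      rw [mk_singleton]
      exact one_lt_aleph0.trans hK.unc)
    obtain ⟨q1, h1, h2, _, _⟩ := hgt e q b'
    have hq1 : LeT e q1 q := h2
    obtain ⟨r', h3, h4, h5⟩ := proj r q1 (fnw_tp (htr _ _ _ hq1 hq)) y v
    have hyq : y < q1.t.ht := (hb' y rfl).trans_le h1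
    refine ⟨⟨r', by rw [h3]; exact htr _ _ _ (htr _ _ _ hq1 hq) hr⟩, y, ⟨?_, h4⟩, hy, ?_, ?_, ?_⟩
    · change LeT e r'.p r.p
      rw [h3]
      exact htr _ _ _ hq1 hq
    · change y < r'.p.t.ht
      rw [h3]
      exact hyq
    · change Mem (LeT e) H y r'.p
      rw [h3]
      exact Mem_down htr hq1 hm
    · exact h5 hy.le hyq
  choose nxt yy hst using step
  obtain ⟨r0, hr0⟩ := br_top p
  have hr0' : LeT e r0.p p := by
    rw [hr0]
    exact LeT_refl e p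
  let seq : ℕ → {r : Rd K Γ L // LeT e r.p p} := fun n =>
    Nat.rec ⟨r0, hr0'⟩ (fun n r => nxt r (decide (n % 2 = 0))) n
  have hseq : ∀ n, seq (n + 1) = nxt (seq n) (decide (n % 2 = 0)) := fun n => rfl
  set h : ℕ → K := fun n => yy (seq n) (decide (n % 2 = 0)) with hh
  have s1 : ∀ n, Rle (LeT e) (seq (n + 1)).1 (seq n).1 := fun n => by
    rw [hseq]
    exact (hst (seq n) (decide (n % 2 = 0))).1
  have s2 : ∀ n, (seq n).1.p.t.ht < h n := fun n => (hst (seq n) (decide (n % 2 = 0))).2.1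
  have s3 : ∀ n, h n < (seq (n + 1)).1.p.t.ht := fun n => by
    rw [hseq]
    exact (hst (seq n) (decide (n % 2 = 0))).2.2.1
  have s4 : ∀ n, Mem (LeT e) H (h n) (seq (n + 1)).1.p := fun n => by
    rw [hseq]
    exact (hst (seq n) (decide (n % 2 = 0))).2.2.2.1
  have s5 : ∀ n, (seq (n + 1)).1.F (h n) = decide (n % 2 = 0) := fun n => by
    rw [hseq]
    exact (hst (seq n) (decide (n % 2 = 0))).2.2.2.2
  have hRt := Rle_trans (K := K) (Γ := Γ) (L := L) htr (fun p q h => fnw_tp h)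
  have schain : ∀ n m, n ≤ m → Rle (LeT e) (seq m).1 (seq n).1 := by
    intro n m hnm
    induction m, hnm using Nat.le_induction with
    | base => exact Rle_refl (LeT_refl e) _
    | succ m _ ih => exact hRt _ _ _ (s1 m) ih
  have hmono : ∀ n, h n < h (n + 1) := fun n => (s3 n).trans (s2 (n + 1))
  have hsm : StrictMono h := strictMono_nat_of_lt_succ hmono
  obtain ⟨mm, hmm⟩ := dirT hK e (Set.range fun n => (seq n).1) ⟨_, ⟨0, rfl⟩⟩
    (lt_of_le_of_lt (Set.countable_range _).le_aleph0 hK.unc) (by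
      rintro _ ⟨n, rfl⟩ _ ⟨m, rfl⟩
      exact ⟨_, ⟨max n m, rfl⟩, schain _ _ (le_max_left _ _), schain _ _ (le_max_right _ _)⟩)
  have hmn : ∀ n, Rle (LeT e) mm (seq n).1 := fun n => hmm _ ⟨n, rfl⟩
  obtain ⟨a, haL, ha1, ha2⟩ := hK.sup h hmono
  have hamm : a ≤ mm.p.t.ht := by
    by_contra hcon
    obtain ⟨n, hn⟩ := ha2 _ (not_le.1 hcon)
    have h1 := (fnw_tp (hmn (n + 1)).1).1
    exact absurd ((hn.trans (s3 n)).trans_le h1) (lt_irrefl _)
  have hF : ∀ n, mm.F (h n) = decide (n % 2 = 0) := fun n => by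
    rw [(hmn (n + 1)).2 _ (s3 n), s5]
  have hmp : LeT e mm.p p := htr _ _ _ (hmn 0).1 (seq 0).2
  obtain ⟨q, hq, ⟨b, hb⟩, hm⟩ := hU a mm.p hmp
  obtain ⟨q1, h1, h2, _, _⟩ := hgt e q b
  have hq1 : LeT e q1 q := h2
  have hq1m : LeT e q1 mm.p := htr _ _ _ hq1 hq
  have hcoh := q1.t.coh b h1 a hb haL
  have hxa : q1.t.x a = mm.p.t.x a := (fnw_tp hq1m).2 a hamm
  rw [hxa] at hcoh
  obtain ⟨b0, hb0, hE⟩ := Eqs_trans hcoh (Eqs_symm (mm.br a hamm haL))
  obtain ⟨n0, hn0⟩ := ha2 b0 hb0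
  have hval : ∀ n, n0 ≤ n → q1.t.x b (h n) = decide (n % 2 = 0) := by
    intro n hn
    rw [hE _ (hn0.le.trans (hsm.monotone hn)) (ha1 n), hF]
  have hMem : ∀ n, Mem (LeT e) H (h n) q1 := fun n =>
    Mem_down htr (htr _ _ _ hq1m (hmn (n + 1)).1) (s4 n)
  refine ⟨h (2 * n0), h (2 * n0 + 1), b, q1, (ha1 (2 * n0)).trans hb, (ha1 (2 * n0 + 1)).trans hb,
    htr _ _ _ hq1m hmp, hMem (2 * n0), hMem (2 * n0 + 1), Mem_down htr hq1 hm, h1, ?_, ?_⟩
  · rw [hval (2 * n0) (by omega)]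
    simp
  · rw [hval (2 * n0 + 1) (by omega), decide_eq_false_iff_not]
    omega

theorem fnwc (hK : InO K) [Nonempty Γ] (e : L → K → Set (Cd K Γ L)) : FNwc (LeT e) K := by
  refine ⟨fnwCol K Γ L, fun H p => ⟨?_, ?_⟩⟩
  · rintro ⟨hU, hh⟩
    obtain ⟨a, a', b, r, _, hab', hrp, _, hma', hmb, hb, _, hx'⟩ := fnw_main hK e H p hU
    exact fnw_false e hb hx' r (LeT_refl e r) (hh a' b hab' r hrp ⟨hma', hmb⟩)
  · rintro ⟨hU, hh⟩
    obtain ⟨a, a', b, r, hab, _, hrp, hma, _, hmb, hb, hx, _⟩ := fnw_main hK e H p hU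
    exact hh a b hab r hrp ⟨hma, hmb⟩ r (LeT_refl e r) (fnw_true e hab hb hx)

end Pool.Agent.PolF
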