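import Pool.Agent.Lib.PolF.Bas

/-!
# Cmp: conditions with the same coherent sequence which agree on the common coordinates are compatible

PROOF. `r = (p.t, p.s ∪ q.s, p.f ∪ q.f)`. `Le_iff`: in the last clause for `r ≤ p`: `(i, ξ) ∈ r.s`,
`(i, ξ) ∉ p.s`, `(i, a) ∈ p.f`: so `(i, ξ) ∈ q.s`, `i ∈ Dm p`, `i ∈ Dm q`, hence `(i, ξ) ∈ p.s` by
`h`, contradiction. Same for `q`.
-/

set_option autoImplicit false
set_option linter.unusedSectionVars false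
universe u

namespace Pool.Agent.PolF

open Cardinal

variable {K Γ L : Type u} [LinearOrder K] [WellFoundedLT K] [LinearOrder Γ] [WellFoundedLT Γ]
  [LinearOrder L] [WellFoundedLT L]

theorem Agr_compat (hK : InO K) {p q : Cd K Γ L} (h : Agr p q) :
    ∃ r : Cd K Γ L, ∀ (e : L → K → Set (Cd K Γ L)) (γ : Γ), Le e γ r p ∧ Le e γ r q := by
  have hinf : ℵ₀ ≤ #K := hK.unc.le
  have hs : #(p.s ∪ q.s : Set (Co K Γ L × K)) < #K :=
    (mk_union_le _ _).trans_lt (add_lt_of_lt hinf p.hs q.hs)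
  have hf : #(p.f ∪ q.f : Set (Co K Γ L × L)) < #K :=
    (mk_union_le _ _).trans_lt (add_lt_of_lt hinf p.hf q.hf)
  refine ⟨⟨p.t, p.s ∪ q.s, p.f ∪ q.f, hs, hf⟩, fun e γ => ⟨?_, ?_⟩⟩
  · rw [Le_iff]
    refine ⟨TpE_refl _, fun _ _ _ h => Or.inl h, fun _ _ _ h => Or.inl h,
      fun i _ ξ a hr hp ha _ => ?_⟩
    rcases hr with hr | hr
    · exact absurd hr hp
    · exact absurd ((h.2 i (Or.inr ⟨a, ha⟩) (Or.inl ⟨ξ, hr⟩) ξ).2 hr) hp
  · rw [Le_iff]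
    refine ⟨by rw [← h.1]; exact TpE_refl _, fun _ _ _ h => Or.inr h, fun _ _ _ h => Or.inr h,
      fun i _ ξ a hr hq ha _ => ?_⟩
    rcases hr with hr | hr
    · exact absurd ((h.2 i (Or.inl ⟨ξ, hr⟩) (Or.inr ⟨a, ha⟩) ξ).1 hr) hq
    · exact absurd hr hq

end Pool.Agent.PolF
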