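import Pool.Agent.Lib.PolF.Ccc
import Pool.Agent.Lib.PolF.Cmp

/-!
# Frl: `L` is forced to be regular

PROOF. `few`: `D = {q | LeT e q p ∧ ∃ x, φ x q}`, `D0` from `cc`, `V` = a choice of one witness for each element of `D0`.
If `LeT e q p`, `φ x q` then `q ∈ D`, `Agr q d0`, `Agr_compat`: `r ≤ q`, `r ≤ d0`, `φ y r` for the chosen `y` of `d0`.
`freg_L`: for `i < t` let `V i` be given by `few` for `φ x q = Mem f (i, x) q`; `⋃ i < t, V i` has at most
`#(Iio t) * 2 ^ #K < #L` elements, so `b` bounds it (`hB.lbdd`, `hB.liio`, `2 ^ #K ≤ #Γ < #L`). `p` forces: for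
`i < t`, `x ≥ b`: `¬ (i, x) ∈ f`: otherwise `q ≤ p`, `Mem f (i, x) q`, so `r ≤ q`, `y ∈ V i`, `Mem f (i, y) r`, and
`y < b ≤ x` contradicts the second hypothesis. (So `Exi` holds with `r = q` and this `b`.)
-/

set_option autoImplicit false
set_option linter.unusedSectionVars false
universe u

namespace Pool.Agent.PolF

open Cardinal

variable {K Γ L : Type u} [LinearOrder K] [WellFoundedLT K] [LinearOrder Γ] [WellFoundedLT Γ]
  [LinearOrder L] [WellFoundedLT L]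

/-- a statement with a witness has, below `p`, at most `2 ^ #K` possible witnesses -/
theorem few (hK : InO K) [Nonempty Γ] (e : L → K → Set (Cd K Γ L)) {X : Type u}
    (φ : X → Cd K Γ L → Prop) (hφ : ∀ x p q, LeT e q p → φ x p → φ x q)
    (p : Cd K Γ L) : ∃ V : Set X, #V ≤ 2 ^ #K ∧ ∀ q x, LeT e q p → φ x q →
      ∃ r, LeT e r q ∧ ∃ y ∈ V, φ y r := by
  obtain ⟨D0, hD0, hc, hcov⟩ := cc hK {q : Cd K Γ L | LeT e q p ∧ ∃ x, φ x q}
  refine ⟨Set.range fun d : D0 => (hD0 d.2).2.choose, mk_range_le.trans hc, fun q x hq hx => ?_⟩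
  obtain ⟨d0, hd0, hA⟩ := hcov q ⟨hq, x, hx⟩
  obtain ⟨r, hr⟩ := Agr_compat hK hA
  exact ⟨r, fun γ => (hr e γ).1, _, ⟨⟨d0, hd0⟩, rfl⟩,
    hφ _ _ _ (fun γ => (hr e γ).2) (hD0 hd0).2.choose_spec⟩

theorem freg_L (hK : InO K) (hB : Big K Γ L) [Nonempty Γ] (e : L → K → Set (Cd K Γ L)) :
    FReg (LeT e) L := by
  intro t f p _ h2
  have hdown : ∀ (i x : L) (p q : Cd K Γ L), LeT e q p → Mem (LeT e) f (i, x) p →
      Mem (LeT e) f (i, x) q := fun i x p q h hm => Mem_down (LeT_trans e) h hm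
  choose V hV1 hV2 using fun i : L => few hK e (fun x q => Mem (LeT e) f (i, x) q)
    (fun x p q => hdown i x p q) p
  have hKL : 2 ^ #K < #L := hB.kg.trans_lt hB.gl
  have hL0 : ℵ₀ ≤ #L := (hK.unc.trans ((cantor #K).trans hKL)).le
  obtain ⟨b, hb⟩ := hB.lbdd (⋃ i : Set.Iio t, V i.1) (by
    calc #(⋃ i : Set.Iio t, V i.1) ≤ Cardinal.sum fun i : Set.Iio t => #(V i.1) :=
          mk_iUnion_le_sum_mk
      _ ≤ Cardinal.sum fun _ : Set.Iio t => 2 ^ #K := sum_le_sum _ _ fun i => hV1 i.1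
      _ = #(Set.Iio t) * 2 ^ #K := by rw [sum_const']
      _ < #L := mul_lt_of_lt hL0 (hB.liio t) hKL)
  intro q hq
  refine ⟨q, LeT_refl e q, b, fun i hi x hx q' hq' hm => ?_⟩
  obtain ⟨r, hr, y, hy, hmy⟩ := hV2 i q' x (LeT_trans e _ _ _ hq' hq) hm
  have hyb : y < b := hb y (Set.mem_iUnion.2 ⟨⟨i, hi⟩, hy⟩)
  exact h2 i hi x y (hyb.trans_le hx).ne' r (LeT_trans e _ _ _ hr (LeT_trans e _ _ _ hq' hq))
    ⟨hdown i x _ _ hr hm, hmy⟩

end Pool.Agent.PolF
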