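import Pool.Agent.Lib.PolF.Bas

/-!
# Ama: amalgams

PROOF. `Ag_Le`: `Le_iff`; the last clause is void because `p` and `q` have the same `s` below `γ`.
`ama_ex`: `m.t = r.t`, `m.s = {z | z.1.1 < γ ∧ z ∈ r.s} ∪ {z | γ ≤ z.1.1 ∧ z ∈ q.s}`, `m.f` likewise
(cardinals: `Cardinal.mk_union_le`, `Cardinal.add_lt_of_lt` with `ℵ₀ ≤ #K` from `hK.unc`). `Ag γ m r` is
clear. `Le e δ m q` by `Le_iff`: `TpE` from `h`; first clauses: for `z ∈ q.s` with stage `< γ` use `h`, with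
stage `≥ γ` it is in `m`. Last clause: `(i, ξ) ∈ m.s`, `∉ q.s` so `i.1 < γ` and `(i, ξ) ∈ r.s`; `h` gives
`Mem (Le e i.1) (e a) ξ r`, and `Le e i.1 m r` (`Ag_Le`, `Le_mono`), `Mem_down`.
`Bel_LeT`: `Le e δ r a`: every coordinate of `a` is `< γ`, so all clauses follow from those of `h`.
`Mem_stage`: (→) for `r ≤_γ p` let `m` be the amalgam of `r` and `p`; some `r1 ≤ m` (`LeT`), `a ∈ A ξ`,
`LeT e r1 a`; then `Le e γ r1 r` and `Le e γ r1 a`. (←) for `LeT e r p` there are `Le e γ r1 r` and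
`a ∈ A ξ` with `Le e γ r1 a`; the amalgam `m` of `r1`, `r` satisfies `LeT e m r` and, as
`Le e γ m r1`, `Le e γ m a`, `LeT e m a` by `Bel_LeT`.
-/

set_option autoImplicit false
set_option linter.unusedSectionVars false
universe u

namespace Pool.Agent.PolF

open Cardinal

variable {K Γ L : Type u} [LinearOrder K] [WellFoundedLT K] [LinearOrder Γ] [WellFoundedLT Γ]
  [LinearOrder L] [WellFoundedLT L]

theorem Ag_symm {γ : Γ} {p q : Cd K Γ L} (h : Ag γ p q) : Ag γ q p :=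
  ⟨h.1.symm, fun i hi => ⟨fun ξ => ((h.2 i hi).1 ξ).symm, fun a => ((h.2 i hi).2 a).symm⟩⟩

theorem Ag_Le {e : L → K → Set (Cd K Γ L)} {γ : Γ} {p q : Cd K Γ L} (h : Ag γ p q) :
    Le e γ p q := by
  rw [Le_iff]
  refine ⟨?_, fun i ξ hi hz => ((h.2 i hi).1 ξ).2 hz, fun i a hi hz => ((h.2 i hi).2 a).2 hz,
    fun i hi ξ a hp hq _ _ => absurd (((h.2 i hi).1 ξ).1 hp) hq⟩
  rw [h.1]
  exact TpE_refl _

private theorem union_lt (hK : InO K) {X : Type u} (A B C : Set X)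
    (hA : #A < #K) (hB : #B < #K) (hC : C ⊆ A ∪ B) : #C < #K := by
  have h1 : #C ≤ #(A ∪ B : Set X) := Cardinal.mk_le_mk_of_subset hC
  exact (h1.trans (Cardinal.mk_union_le A B)).trans_lt
    (Cardinal.add_lt_of_lt hK.unc.le hA hB)

/-- the amalgam: `r` below `γ`, `q` above -/
theorem ama_ex (hK : InO K) {e : L → K → Set (Cd K Γ L)} {γ : Γ} {r q : Cd K Γ L}
    (h : Le e γ r q) : ∃ m : Cd K Γ L, Ag γ m r ∧ LeT e m q ∧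
      (∀ z, z ∈ m.s ↔ (z.1.1 < γ ∧ z ∈ r.s) ∨ (γ ≤ z.1.1 ∧ z ∈ q.s)) ∧
      (∀ z, z ∈ m.f ↔ (z.1.1 < γ ∧ z ∈ r.f) ∨ (γ ≤ z.1.1 ∧ z ∈ q.f)) := by
  let m : Cd K Γ L :=
    { t := r.t
      s := {z | (z.1.1 < γ ∧ z ∈ r.s) ∨ (γ ≤ z.1.1 ∧ z ∈ q.s)}
      f := {z | (z.1.1 < γ ∧ z ∈ r.f) ∨ (γ ≤ z.1.1 ∧ z ∈ q.f)}
      hs := union_lt hK r.s q.s _ r.hs q.hs (fun z hz => hz.elim (fun h => Or.inl h.2)
        (fun h => Or.inr h.2))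
      hf := union_lt hK r.f q.f _ r.hf q.hf (fun z hz => hz.elim (fun h => Or.inl h.2)
        (fun h => Or.inr h.2)) }
  have hms : ∀ z, z ∈ m.s ↔ (z.1.1 < γ ∧ z ∈ r.s) ∨ (γ ≤ z.1.1 ∧ z ∈ q.s) := fun z => Iff.rfl
  have hmf : ∀ z, z ∈ m.f ↔ (z.1.1 < γ ∧ z ∈ r.f) ∨ (γ ≤ z.1.1 ∧ z ∈ q.f) := fun z => Iff.rfl
  have hAg : Ag γ m r := by
    refine ⟨rfl, fun i hi => ⟨fun ξ => ?_, fun a => ?_⟩⟩
    · rw [hms]
      exact ⟨fun h => h.elim (fun h => h.2) (fun h => absurd hi (not_lt.2 h.1)),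
        fun h => Or.inl ⟨hi, h⟩⟩
    · rw [hmf]
      exact ⟨fun h => h.elim (fun h => h.2) (fun h => absurd hi (not_lt.2 h.1)),
        fun h => Or.inl ⟨hi, h⟩⟩
  refine ⟨m, hAg, fun δ => ?_, hms, hmf⟩
  have h' := (Le_iff e γ r q).1 h
  rw [Le_iff]
  refine ⟨h'.1, fun i ξ _ hz => ?_, fun i a _ hz => ?_, fun i _ ξ a hm hq ha hv => ?_⟩
  · rcases lt_or_ge i.1 γ with hi | hi
    · exact Or.inl ⟨hi, h'.2.1 i ξ hi hz⟩
    · exact Or.inr ⟨hi, hz⟩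
  · rcases lt_or_ge i.1 γ with hi | hi
    · exact Or.inl ⟨hi, h'.2.2.1 i a hi hz⟩
    · exact Or.inr ⟨hi, hz⟩
  · rcases hm with hm | hm
    · exact Mem_down (Le_trans i.1) (Le_mono hm.1.le (Ag_Le hAg))
        (h'.2.2.2 i hm.1 ξ a hm.2 hq ha hv)
    · exact absurd hm.2 hq

theorem Bel_LeT {e : L → K → Set (Cd K Γ L)} {γ : Γ} {r a : Cd K Γ L} (ha : Bel γ a)
    (h : Le e γ r a) : LeT e r a := by
  intro δ
  have h' := (Le_iff e γ r a).1 h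
  rw [Le_iff]
  exact ⟨h'.1, fun i ξ _ hz => h'.2.1 i ξ (ha.1 i ξ hz) hz,
    fun i b _ hz => h'.2.2.1 i b (ha.2 i b hz) hz,
    fun i _ ξ b hr hn hb hv => h'.2.2.2 i (ha.2 i b hb) ξ b hr hn hb hv⟩

theorem Mem_stage (hK : InO K) {e : L → K → Set (Cd K Γ L)} {γ : Γ} {A : K → Set (Cd K Γ L)}
    (hA : ∀ ξ, ∀ a ∈ A ξ, Bel γ a) (ξ : K) (p : Cd K Γ L) :
    Mem (LeT e) A ξ p ↔ Mem (Le e γ) A ξ p := by
  constructor
  · intro h r hr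
    obtain ⟨m, hm, hmp, -, -⟩ := ama_ex hK hr
    obtain ⟨r1, hr1, a, ha, hra⟩ := h m hmp
    exact ⟨r1, Le_trans γ _ _ _ (hr1 γ) (Ag_Le hm), a, ha, hra γ⟩
  · intro h r hr
    obtain ⟨r1, hr1, a, ha, hra⟩ := h r (hr γ)
    obtain ⟨m, hm, hmr, -, -⟩ := ama_ex hK hr1
    exact ⟨m, hmr, a, ha, Bel_LeT (hA ξ a ha) (Le_trans γ _ _ _ (Ag_Le hm) hra)⟩

end Pool.Agent.PolF
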