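import Pool.Agent.Lib.PolF.Ufl
import Pool.Agent.Lib.PolF.Ama

/-!
# Unc: the generic sets are unbounded

PROOF. `i0 = (γ, x, l)`. `InT_ex`: `r1 : Rd` with `r1.p = r`, `ExtN x r1`. Let
`J = {a | (i0, a) ∈ r.f ∧ Vld (Le e γ) x (e a)}`, `#J < #K` (injects in `r.f`). For `a ∈ J`:
`UFof (Le e γ) (emb (Le e γ) (e a)) r1`. `(UF_stage ..).inter` for `ι = J`, then `.unb`: there are `r2 ≤ r1`
(`Rle (Le e γ)`) and `ξ > b` with `Mem (Rle ..) (fun x => {r | ∀ a, Mem .. (emb (e a)) x r}) ξ r2`; so some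
`r3 ≤ r2` is below an element of this set, hence (`Mem_down`, `emb_Mem`) `Mem (Le e γ) (e a) ξ r3.p` for all `a ∈ J`.
`ama_ex` for `Le e γ r3.p r`: `m` with `Ag γ m r3.p`, `LeT e m r`. `r` prime: `m` with
`s = insert (i0, ξ) m.s`. `Le e δ r m`, indeed we show `LeT e r r` by `Le_iff`: in the last clause
the only new case is `(i, ξ) = (i0, ξ)` with `(i0, a) ∈ r.f` valid, i.e. `a ∈ J`: `Mem (Le e γ) (e a) ξ r` since
`Ag γ r r3.p`. (Other elements: from `LeT e m r`, and `Le e i.1 r m`: prove `LeT`-clauses by strong induction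
on the stage `δ`, or note `Le e β r m` for `β ≤ γ` by `Ag_Le`, and for `(i, ξ) ∈ m.s` new with respect to `r`,
`i.1 < γ`, so only `β = i.1 < γ` is needed.)
-/

set_option autoImplicit false
set_option linter.unusedSectionVars false
universe u

namespace Pool.Agent.PolF

open Cardinal

variable {K Γ L : Type u} [LinearOrder K] [WellFoundedLT K] [LinearOrder Γ] [WellFoundedLT Γ]
  [LinearOrder L] [WellFoundedLT L]

/-- the generic set of a coordinate whose node is in the tree is unbounded -/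
theorem unb_coord (hK : InO K) (hI : Ind K Γ L) (e : L → K → Set (Cd K Γ L)) (r : Cd K Γ L)
    (γ : Γ) (x : Nd K) (l : L) (hx : InT x r.t) (b : K) :
    ∃ r' : Cd K Γ L, LeT e r' r ∧ ∃ ξ, b < ξ ∧ (((γ, x, l) : Co K Γ L), ξ) ∈ r'.s ∧
      ∀ (i : Co K Γ L) ξ', γ ≤ i.1 → (i, ξ') ∈ r'.s →
        (i, ξ') ∈ r.s ∨ (i, ξ') = (((γ, x, l) : Co K Γ L), ξ) := by
  obtain ⟨r1, hr1, hext⟩ := InT_ex r x hx
  have hRr : ∀ p : Rd K Γ L, Rle (Le e γ) p p := Rle_refl (Le_refl e γ)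
  have hRt : ∀ p q s : Rd K Γ L, Rle (Le e γ) p q → Rle (Le e γ) q s → Rle (Le e γ) p s :=
    Rle_trans (Le_trans γ) (fun p q h => Le_tp h)
  have hU := UF_stage hK hI e γ
  have hJ : #{a : L // (((γ, x, l) : Co K Γ L), a) ∈ r.f ∧ Vld (Le e γ) x (e a)} < #K := by
    refine lt_of_le_of_lt ?_ r.hf
    refine Cardinal.mk_le_of_injective
      (f := fun a : {a : L // (((γ, x, l) : Co K Γ L), a) ∈ r.f ∧ Vld (Le e γ) x (e a)} =>
        (⟨(((γ, x, l) : Co K Γ L), a.1), a.2.1⟩ : r.f)) ?_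
    intro a a' h
    have h1 := congrArg Subtype.val h
    exact Subtype.ext (congrArg Prod.snd h1)
  have h1 := hU.inter _ hJ (fun a => emb (Le e γ) (e a.1)) r1 (fun a => a.2.2 r1 hext)
  obtain ⟨r2, hr2, ⟨ξ, hξ⟩, hm⟩ := hU.unb _ _ h1 b r1 (hRr r1)
  obtain ⟨r3, hr3, c, hc, hr3c⟩ := hm r2 (hRr r2)
  have hmem : ∀ a : L, (((γ, x, l) : Co K Γ L), a) ∈ r.f → Vld (Le e γ) x (e a) →
      Mem (Le e γ) (e a) ξ r3.p := by
    intro a ha hv
    have h2 := hc ⟨a, ha, hv⟩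
    exact (emb_Mem e γ (e a) ξ r3).1 (Mem_down hRt hr3c h2)
  have hr31 : Le e γ r3.p r := hr1 ▸ (hRt _ _ _ hr3 hr2).1
  obtain ⟨m, hag, hmr, hs, -⟩ := ama_ex hK hr31
  have hcard : #(insert (((γ, x, l) : Co K Γ L), ξ) m.s : Set (Co K Γ L × K)) < #K := by
    refine lt_of_le_of_lt Cardinal.mk_insert_le ?_
    exact Cardinal.add_lt_of_lt hK.unc.le m.hs (Cardinal.one_lt_aleph0.trans hK.unc)
  let r' : Cd K Γ L := ⟨m.t, insert (((γ, x, l) : Co K Γ L), ξ) m.s, m.f, hcard, m.hf⟩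
  have hagm : Ag γ r' m := by
    refine ⟨rfl, fun i hi => ⟨fun ξ' => ⟨fun h => ?_, fun h => Set.mem_insert_of_mem _ h⟩,
      fun a => Iff.rfl⟩⟩
    rcases h with h | h
    · have h2 : i = ((γ, x, l) : Co K Γ L) := congrArg Prod.fst h
      rw [h2] at hi
      exact absurd hi (lt_irrefl γ)
    · exact h
  have hle1 : Le e γ r' m := Ag_Le hagm
  have hle2 : Le e γ r' r3.p := Le_trans γ _ _ _ hle1 (Ag_Le hag)
  refine ⟨r', ?_, ξ, hξ, Set.mem_insert _ _, ?_⟩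
  · intro δ
    have hδ := (Le_iff e δ m r).1 (hmr δ)
    rw [Le_iff]
    refine ⟨hδ.1, fun i ξ' hi h => Set.mem_insert_of_mem _ (hδ.2.1 i ξ' hi h), hδ.2.2.1, ?_⟩
    intro i hi ξ' a h2 h3 ha hv
    rcases h2 with h2 | h2
    · have h4 : i = ((γ, x, l) : Co K Γ L) := congrArg Prod.fst h2
      have h5 : ξ' = ξ := congrArg Prod.snd h2
      subst h4
      subst h5
      exact Mem_down (Le_trans γ) hle2 (hmem a ha hv)
    · have h4 : i.1 < γ := by
        rcases (hs (i, ξ')).1 h2 with h5 | h5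
        · exact h5.1
        · exact absurd h5.2 h3
      exact Mem_down (Le_trans i.1) (Le_mono h4.le hle1) (hδ.2.2.2 i hi ξ' a h2 h3 ha hv)
  · intro i ξ' hi h
    rcases h with h | h
    · exact Or.inr h
    · rcases (hs (i, ξ')).1 h with h5 | h5
      · exact absurd h5.1 (not_lt.2 hi)
      · exact Or.inl h5.2

end Pool.Agent.PolF
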