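import Pool.Agent.Lib.PolF.Rea
import Pool.Agent.Lib.PolF.Unc
import Pool.Agent.Lib.PolF.Frl

/-!
# Fpo: the positive polarized relation is forced

PROOF. Fix `l0 : L`. For `a : L` let `S a ξ = c (a, ξ)`; `reap` (with `l0`, `S a`, `p`) gives
`q a ≤ p`, `γ a`, `x a`, `v a`. Let `i a = (γ a, x a, l0)`, `w a = {ξ | (i a, ξ) ∈ (q a).s}`. The map
`a ↦ (γ a, x a, v a, w a, (q a).t)` takes at most `#Γ * 2 ^ #K = #Γ < #L` values, so one value `(γ, x, v, w, t)` is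
taken on an unbounded set `A0` (`#L` regular: otherwise for each value a bound, and the bounds are
bounded by `hB.lbdd`). `p1` = `p` with `t` in place of `p.t`: `LeT e p1 p` (`TpE t p.t`), `LeT e (q a) p1` for
`a ∈ A0` (`Le_iff`; same `s`, `f` as `p`; the `Mem` statements are about `q a`), `InT x t`.
`A a = {r | ∀ r1, LeT e r1 r → ∀ ξ, (i, ξ) ∈ r1.s → ξ ∉ w → (v = true → Mem c (a, ξ) r1) ∧
(v = false → Neg (Mem c (a, ξ)) r1)}`, so `q a ∈ A a` for `a ∈ A0`;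
`B ξ = {r | (i, ξ) ∈ r.s ∧ ξ ∉ w}`. `Unb B r` for all `r ≤ p1`: `unb_coord` with a bound above `b` and `w`
(`w` is bounded, `hK.bdd`) and `InT_mono`. Some `q ≤ p1` has `Unb A q`: otherwise (`Unb A q` fails for all `q ≤ p1`) for
all `q ≤ p1` there are `r ≤ q` and `b : L` such that no `s ≤ r` has `Mem A a s` with `a > b`; call this
`φ b r`; `few` (for `p1`): `V`, `#V ≤ 2 ^ #K < #L`, bounded by `b1`; take `a ∈ A0`, `a > b1`; `q a ≤ p1`, so some
`r ≤ q a` with `φ b r` and then `r1 ≤ r`, `y ∈ V`, `φ y r1`, but `Mem A a r1` and `a > b1 > y`. The homogeneity: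
if `s ≤ q`, `Mem A a s`, `Mem B b s`: densely below `s` there is `r` below elements of `A a` and of `B b`
(`LeT` preserves membership in both), so `Mem c (a, b) r` resp. `Neg`; `Mem_loc`.
-/

set_option autoImplicit false
set_option linter.unusedSectionVars false
universe u

namespace Pool.Agent.PolF

open Cardinal

variable {K Γ L : Type u} [LinearOrder K] [WellFoundedLT K] [LinearOrder Γ] [WellFoundedLT Γ]
  [LinearOrder L] [WellFoundedLT L]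

private theorem fpo_card (hK : InO K) (hB : Big K Γ L) :
    #(Γ × Nd K × Bool × Set K × Tp K) < #L := by
  have h2 : (2 ^ #K : Cardinal.{u}) < #L := lt_of_le_of_lt hB.kg hB.gl
  have hKL : #K < #L := (Cardinal.cantor _).trans h2
  have h0 : ℵ₀ ≤ #L := (hK.unc.trans hKL).le
  have hfun : #(K → Bool) < #L := by
    have : #(K → Bool) = 2 ^ #K := by simp
    rw [this]; exact h2
  have hset : #(Set K) < #L := by rw [Cardinal.mk_set]; exact h2
  have hTp : #(Tp K) < #L := lt_of_le_of_lt hK.card_Tp h2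
  have hbool : #(ULift.{u} Bool) < #L :=
    (Cardinal.lt_aleph0_of_finite _).trans_le h0
  have e1 : #(Γ × Nd K × Bool × Set K × Tp K) =
      #Γ * ((#K * #(K → Bool)) * (#(ULift.{u} Bool) * (#(Set K) * #(Tp K)))) := by
    simp only [Nd, Cardinal.mk_prod, Cardinal.lift_uzero, Cardinal.lift_id, Cardinal.mk_uLift]
  rw [e1]
  exact Cardinal.mul_lt_of_lt h0 hB.gl (Cardinal.mul_lt_of_lt h0
    (Cardinal.mul_lt_of_lt h0 hKL hfun) (Cardinal.mul_lt_of_lt h0 hbool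
      (Cardinal.mul_lt_of_lt h0 hset hTp)))

/-- pigeonhole -/
private theorem fpo_pigeon (hB : Big K Γ L) {T : Type u} (hT : #T < #L) (G : L → T) :
    ∃ y : T, ∀ b : L, ∃ a, b < a ∧ G a = y := by
  by_contra hcon
  push Not at hcon
  choose bd hbd using hcon
  obtain ⟨b, hb⟩ := hB.lbdd (Set.range bd) (lt_of_le_of_lt Cardinal.mk_range_le hT)
  exact hbd (G b) b (hb _ ⟨_, rfl⟩) rfl

theorem fpol (hK : InO K) (hB : Big K Γ L) (hI : Ind K Γ L) {e : L → K → Set (Cd K Γ L)}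
    (hE : Enu e) : FPol (LeT e) K L := by
  intro c p
  have h2 : (2 ^ #K : Cardinal.{u}) < #L := lt_of_le_of_lt hB.kg hB.gl
  have hL0 : 0 < #L := lt_of_le_of_lt zero_le h2
  obtain ⟨l0, -⟩ := hB.lbdd ∅ (by simpa using hL0)
  obtain ⟨g0, -⟩ := hB.gbdd ∅ (by simp)
  have : Nonempty Γ := ⟨g0⟩
  have hre := fun a : L => reap hK hB hI hE l0 (fun ξ => c (a, ξ)) p
  choose q hqp γ x v hIn hr using hre
  obtain ⟨⟨γ1, x1, v1, w, t⟩, hy⟩ := fpo_pigeon hB (fpo_card hK hB) (fun a =>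
    (γ a, x a, v a, {ξ | (((γ a, x a, l0) : Co K Γ L), ξ) ∈ (q a).s}, (q a).t))
  simp only [Prod.mk.injEq] at hy
  obtain ⟨a0, -, ha0⟩ := hy l0
  -- the coordinate
  obtain ⟨i, hi⟩ : ∃ i : Co K Γ L, i = (γ1, x1, l0) := ⟨_, rfl⟩
  have htp : TpE t p.t := by
    have := Le_tp (hqp a0 g0)
    rwa [ha0.2.2.2.2] at this
  obtain ⟨γ2, hγ2⟩ := hB.gbdd {γ1} (by
    rw [Cardinal.mk_singleton]
    exact (Cardinal.one_lt_aleph0.le.trans hK.unc.le).trans (Cardinal.cantor _).le)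
  have hγ12 : i.1 < γ2 := by rw [hi]; exact hγ2 γ1 rfl
  let p1 : Cd K Γ L := ⟨t, p.s, p.f, p.hs, p.hf⟩
  have hp1p : LeT e p1 p := by
    intro δ
    rw [Le_iff]
    exact ⟨htp, fun _ _ _ h => h, fun _ _ _ h => h, fun _ _ _ _ h h' => absurd h h'⟩
  have hqp1 : ∀ a, (q a).t = t → LeT e (q a) p1 := by
    intro a ha δ
    have h := (Le_iff e δ (q a) p).1 (hqp a δ)
    rw [Le_iff]
    refine ⟨?_, h.2.1, h.2.2.1, h.2.2.2⟩
    rw [ha]
    exact TpE_refl _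
  have hInt : InT x1 t := by
    have := hIn a0
    rw [ha0.2.1, ha0.2.2.2.2] at this
    exact this
  have htp1 : ∀ r, LeT e r p1 → TpE r.t t := fun r h => Le_tp (h g0)
  have hwi : ∀ a, γ a = γ1 → x a = x1 → {ξ | (((γ a, x a, l0) : Co K Γ L), ξ) ∈ (q a).s} = w →
      ∀ ξ, ξ ∈ w ↔ (i, ξ) ∈ (q a).s := by
    intro a h1 h2 h3 ξ
    rw [← h3, hi, ← h1, ← h2]
    rfl
  -- the set `w` is bounded
  obtain ⟨bw, hbw⟩ := hK.bdd w (by
    have h3 := hwi a0 ha0.1 ha0.2.1 ha0.2.2.2.1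
    refine lt_of_le_of_lt ?_ (q a0).hs
    refine Cardinal.mk_le_of_injective (f := fun ξ : w => (⟨(i, ξ.1), (h3 _).1 ξ.2⟩ : (q a0).s)) ?_
    intro ξ ξ' h
    have := congrArg (fun z : (q a0).s => z.1.2) h
    exact Subtype.ext this)
  let A : L → Set (Cd K Γ L) := fun a => {r | ∀ r1, LeT e r1 r → ∀ ξ, (i, ξ) ∈ r1.s → ξ ∉ w →
    (v1 = true → Mem (LeT e) c (a, ξ) r1) ∧ (v1 = false → Neg (LeT e) (Mem (LeT e) c (a, ξ)) r1)}
  let B : K → Set (Cd K Γ L) := fun ξ => {r | (i, ξ) ∈ r.s ∧ ξ ∉ w}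
  have hqA : ∀ a, γ a = γ1 ∧ x a = x1 ∧ v a = v1 ∧
      {ξ | (((γ a, x a, l0) : Co K Γ L), ξ) ∈ (q a).s} = w ∧ (q a).t = t → q a ∈ A a := by
    rintro a ⟨h1, h2, h3, h4, h5⟩ r1 hr1 ξ hξ hξw
    have h6 := hr a r1 hr1 ξ (by rw [h1, h2, ← hi]; exact hξ) (by
      rw [h1, h2, ← hi, ← hwi a h1 h2 h4]; exact hξw)
    rw [h3] at h6
    exact h6
  have hBunb : ∀ r, LeT e r p1 → Unb (LeT e) B r := by
    intro r hr1 b q' hq'
    have hx : InT x1 q'.t := InT_mono (htp1 q' (LeT_trans e _ _ _ hq' hr1)) hInt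
    obtain ⟨r', hr', ξ, hξ, hξs, -⟩ := unb_coord hK hI e q' γ1 x1 l0 hx (max b bw)
    refine ⟨r', hr', ⟨ξ, (le_max_left _ _).trans_lt hξ⟩, ?_⟩
    intro q'' hq''
    refine ⟨q'', LeT_refl e _, r', ⟨by rw [hi]; exact hξs, ?_⟩, hq''⟩
    intro hw'
    exact absurd (hbw ξ hw') (not_lt.2 ((le_max_right b bw).trans hξ.le))
  have hAunb : ∃ q1, LeT e q1 p1 ∧ Unb (LeT e) A q1 := by
    by_contra hcon
    push Not at hcon
    have hfew := few hK e (fun b r => ∀ s, LeT e s r → ∀ y, b < y → ¬ Mem (LeT e) A y s)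
      (fun b p q hqp h s hs => h s (LeT_trans e _ _ _ hs hqp)) p1
    obtain ⟨V, hV, hVf⟩ := hfew
    obtain ⟨b1, hb1⟩ := hB.lbdd V (lt_of_le_of_lt hV h2)
    obtain ⟨a, hab, ha⟩ := hy b1
    have hqa := hqp1 a ha.2.2.2.2
    have hno := hcon _ hqa
    unfold Unb at hno
    push Not at hno
    obtain ⟨b, hb⟩ := hno
    unfold Exi at hb
    push Not at hb
    obtain ⟨r, hrq, hr'⟩ := hb
    obtain ⟨r1, hr1, y, hyV, hy'⟩ := hVf r b (LeT_trans e _ _ _ hrq hqa)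
      (fun s hs y hby hm => hr' s hs ⟨y, hby⟩ hm)
    refine hy' r1 (LeT_refl e _) a ((hb1 y hyV).trans hab) ?_
    intro q' hq'
    exact ⟨q', LeT_refl e _, q a, hqA a ha,
      LeT_trans e _ _ _ hq' (LeT_trans e _ _ _ hr1 hrq)⟩
  obtain ⟨q1, hq1, hAq1⟩ := hAunb
  refine ⟨q1, LeT_trans e _ _ _ hq1 hp1p, A, B, hAq1, hBunb q1 hq1, ?_⟩
  -- a common extension
  have hcom : ∀ a b s, Mem (LeT e) A a s → Mem (LeT e) B b s → ∀ s', LeT e s' s →
      ∃ r, LeT e r s' ∧ (v1 = true → Mem (LeT e) c (a, b) r) ∧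
        (v1 = false → Neg (LeT e) (Mem (LeT e) c (a, b)) r) := by
    intro a b s hA hBm s' hs'
    obtain ⟨r1, hr1, α, hα, hr1α⟩ := hA s' hs'
    obtain ⟨r2, hr2, β, hβ, hr2β⟩ := hBm r1 (LeT_trans e _ _ _ hr1 hs')
    have hmem : (i, b) ∈ r2.s := ((Le_iff e γ2 r2 β).1 (hr2β γ2)).2.1 i b hγ12 hβ.1
    exact ⟨r2, LeT_trans e _ _ _ hr2 hr1, hα r2 (LeT_trans e _ _ _ hr2 hr1α) b hmem hβ.2⟩
  rcases Bool.eq_false_or_eq_true v1 with hv | hv
  · left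
    intro a b s _ hm
    refine Mem_loc (LeT_trans e) (LeT_refl e) fun s' hs' => ?_
    obtain ⟨r, hr1, hr2, -⟩ := hcom a b s hm.1 hm.2 s' hs'
    exact ⟨r, hr1, hr2 hv⟩
  · right
    intro a b s _ hm s' hs' hc
    obtain ⟨r, hr1, -, hr2⟩ := hcom a b s hm.1 hm.2 s' hs'
    exact hr2 hv r (LeT_refl e _) (Mem_down (LeT_trans e) hr1 hc)

end Pool.Agent.PolF
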