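import Pool.Agent.Lib.PolF.Dir

/-!
# Ufl: the ultrafilter names

PROOF. `uf_tail`: `hU.loc`: let `q ≤ p`; `hU.ultra A q` gives `r ≤ q` with `U A r` (done) or
`U (Cmpl le A) r`; then `hU.unb` gives (below `r`) some `x > b` and `s ≤ r` with
`Mem le (Cmpl le A) x s`, so some `s1 ≤ s` is below an element of `Cmpl le A x`, contradicting
`Mem le A x p`. `UF_stage`: `hI` applied to `Rle (Le e γ)` (`Rle_refl`, `Rle_trans`, `Le_tp`, `dirR`) gives the
existence, `UFof` is `dif_pos`. `emb_Mem`: (→) given `q ≤_γ r.p`, `proj` gives `r1` with `r1.p = q`,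
`Rle r1 r`; some `r2 ≤ r1` is below an element of `emb A ξ`, so `Mem A ξ r2.p`, hence some `r3 ≤ r2.p ≤ q`
below an element of `A ξ`. (←) take `r1` itself (`Mem_down`, it belongs to `emb A ξ`).
`emb_Cmpl`: (→) if `q ≤_γ r.p` and `Mem A ξ q`: `r1` over `q` (`proj`); some `r2 ≤ r1`, `r2 ≤ c ∈ Cmpl`,
contradiction with `emb_Mem` at `r2`. (←) every `r1 ≤ r` belongs to `Cmpl` (use `emb_Mem`).
-/

set_option autoImplicit false
set_option linter.unusedSectionVars false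
universe u

namespace Pool.Agent.PolF

open Cardinal

variable {K Γ L : Type u} [LinearOrder K] [WellFoundedLT K] [LinearOrder Γ] [WellFoundedLT Γ]
  [LinearOrder L] [WellFoundedLT L]

/-- sets containing a final segment are in the ultrafilter -/
theorem uf_tail {R : Type u} {le : R → R → Prop} (hr : ∀ p, le p p)
    (ht : ∀ p q r, le p q → le q r → le p r) {U : (K → Set R) → R → Prop} (hU : IsUF le U)
    (b : K) (A : K → Set R) (p : R) (hA : ∀ x, b < x → Mem le A x p) : U A p := by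
  refine hU.loc A p fun q hq => ?_
  obtain ⟨r, hrq, hr1⟩ := hU.ultra A q
  rcases hr1 with h | h
  · exact ⟨r, hrq, h⟩
  · exfalso
    obtain ⟨s, hsr, x, hx⟩ := hU.unb _ _ h b r (hr r)
    obtain ⟨s1, hs1, a, ha, hsa⟩ := hx s (hr s)
    have hsp : le s1 p := ht _ _ _ hs1 (ht _ _ _ hsr (ht _ _ _ hrq hq))
    exact ha s1 hsa (Mem_down ht hsp (hA x.1 x.2))

theorem UF_stage (hK : InO K) (hI : Ind K Γ L) (e : L → K → Set (Cd K Γ L)) (γ : Γ) :
    IsUF (Rle (Le e γ)) (UFof (Le e γ)) := by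
  have h : ∃ U : (K → Set (Rd K Γ L)) → Rd K Γ L → Prop, IsUF (Rle (Le e γ)) U :=
    hI _ (Rle_refl (Le_refl e γ)) (Rle_trans (Le_trans γ) fun _ _ h => Le_tp h) (dirR hK e γ)
  unfold UFof
  rw [dif_pos h]
  exact h.choose_spec

theorem emb_Mem (e : L → K → Set (Cd K Γ L)) (γ : Γ) (A : K → Set (Cd K Γ L)) (ξ : K)
    (r : Rd K Γ L) : Mem (Rle (Le e γ)) (emb (Le e γ) A) ξ r ↔ Mem (Le e γ) A ξ r.p := by
  constructor
  · intro h q hq
    obtain ⟨r1, hr1, hF, -⟩ := proj r q (Le_tp hq) r.p.t.ht true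
    obtain ⟨r2, hr2, a, ha, hra⟩ := h r1 ⟨by rw [hr1]; exact hq, hF⟩
    have h2 : Mem (Le e γ) A ξ r2.p := Mem_down (Le_trans γ) hra.1 ha
    obtain ⟨r3, hr3, b, hb, hrb⟩ := h2 r2.p (Le_refl e γ _)
    refine ⟨r3, Le_trans γ _ _ _ hr3 ?_, b, hb, hrb⟩
    rw [← hr1]
    exact hr2.1
  · intro h r1 hr1
    exact ⟨r1, Rle_refl (Le_refl e γ) _, r1, Mem_down (Le_trans γ) hr1.1 h,
      Rle_refl (Le_refl e γ) _⟩

theorem emb_Cmpl (e : L → K → Set (Cd K Γ L)) (γ : Γ) (A : K → Set (Cd K Γ L)) (ξ : K)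
    (r : Rd K Γ L) : Mem (Rle (Le e γ)) (Cmpl (Rle (Le e γ)) (emb (Le e γ) A)) ξ r ↔
      Neg (Le e γ) (Mem (Le e γ) A ξ) r.p := by
  constructor
  · intro h q hq hm
    obtain ⟨r1, hr1, hF, -⟩ := proj r q (Le_tp hq) r.p.t.ht true
    obtain ⟨r2, hr2, c, hc, hrc⟩ := h r1 ⟨by rw [hr1]; exact hq, hF⟩
    refine hc r2 hrc ((emb_Mem e γ A ξ r2).2 (Mem_down (Le_trans γ) ?_ hm))
    rw [← hr1]
    exact hr2.1
  · intro h r1 hr1
    refine ⟨r1, Rle_refl (Le_refl e γ) _, r1, ?_, Rle_refl (Le_refl e γ) _⟩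
    intro r2 hr2 hm
    exact h r2.p (Le_trans γ _ _ _ hr2.1 hr1.1) ((emb_Mem e γ A ξ r2).1 hm)

end Pool.Agent.PolF
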