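import Pool.Agent.Lib.PolF.Nic
import Pool.Agent.Lib.PolF.Unc
import Pool.Agent.Lib.PolF.Ufl

/-!
# Fpw: `2 ^ K = L` is forced

PROOF. `Γ`, `K` are nonempty; `γ0`, `k0` their least elements, `x0 = (k0, fun _ => false)`; `InT x0 t` for all `t`
(no limit `a ≤ k0`), `ExtN x0 r` for all `r`. First part: `x (l, ξ) = {r | ((γ0, x0, l), ξ) ∈ r.s}`. Let
`l ≠ l1`, `i = (γ0, x0, l)`, `i1 = (γ0, x0, l1)`. Given `q ≤ p`: `b` = strict upper bound of `{ξ | (i1, ξ) ∈ q.s}`.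
`unb_coord`: `r ≤ q`, `ξ > b`, `(i, ξ) ∈ r.s`, and `(i1, ξ) ∉ r.s` (stage `γ0 ≥ γ0`; `(i1, ξ) ∉ q.s`, `i1 ≠ i`).
Let `A y = univ` if `ξ < y`, `∅` otherwise, `a` its label (`nice_stage` for `γ0`);
`Vld (Le e γ0) x0 (e a)` by `uf_tail` (`b = ξ`, `emb_Mem`, `Mem .. univ` is trivial). `r1 = r` with
`f = insert (i1, a) r.f`: `LeT e r1 r`. For every `s ≤ r1` (`LeT`), `(i1, ξ) ∉ s.s`: otherwise `Le_iff` at a stage
`> γ0` gives `Mem (Le e γ0) (e a) ξ s`, so `Mem (Le e γ0) A ξ s`, but `A ξ = ∅`. So `r1` forces `ξ ∈ x_l`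
and `ξ ∉ x_l1`. Second part: `y (a, ξ) = e a ξ`; for `S` the label `a` of `nice_tot` satisfies
`Mem S i r ↔ Mem (e a) i r` for all `r` (note `Mem le y (a, i) = Mem le (e a) i` by definition).
-/

set_option autoImplicit false
set_option linter.unusedSectionVars false
universe u

namespace Pool.Agent.PolF

open Cardinal

variable {K Γ L : Type u} [LinearOrder K] [WellFoundedLT K] [LinearOrder Γ] [WellFoundedLT Γ]
  [LinearOrder L] [WellFoundedLT L]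

private theorem fpw_ub (hK : InO K) (i1 : Co K Γ L) (q : Cd K Γ L) :
    ∃ b : K, ∀ ξ, (i1, ξ) ∈ q.s → ξ < b := by
  have h : #{ξ : K | (i1, ξ) ∈ q.s} < #K := by
    refine lt_of_le_of_lt ?_ q.hs
    refine Cardinal.mk_le_of_injective (f := fun ξ : {ξ : K | (i1, ξ) ∈ q.s} =>
      (⟨(i1, ξ.1), ξ.2⟩ : q.s)) ?_
    intro x y hxy
    have h1 := congrArg Subtype.val hxy
    have h2 := congrArg Prod.snd h1
    exact Subtype.ext h2
  obtain ⟨b, hb⟩ := hK.bdd _ h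
  exact ⟨b, fun ξ hξ => hb ξ hξ⟩

private theorem fpw_distinct (hK : InO K) (hB : Big K Γ L) (hI : Ind K Γ L)
    {e : L → K → Set (Cd K Γ L)} (hE : Enu e) (γ0 : Γ) (x0 : Nd K) (hx0 : ∀ x : K, x0.1 ≤ x)
    (l l1 : L) (hl : l ≠ l1) (q : Cd K Γ L) :
    ∃ r1 : Cd K Γ L, LeT e r1 q ∧ ∃ ξ : K, (((γ0, x0, l) : Co K Γ L), ξ) ∈ r1.s ∧
      ∀ s, LeT e s r1 → (((γ0, x0, l1) : Co K Γ L), ξ) ∉ s.s := by
  have hlim : ∀ a ≤ x0.1, ¬ LimK a := by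
    rintro a ha ⟨⟨x, hx⟩, -⟩
    exact absurd (hx.trans_le ha) (not_lt.2 (hx0 x))
  have hin : ∀ t : Tp K, InT x0 t := fun t => ⟨hx0 _, fun a ha h => absurd h (hlim a ha)⟩
  obtain ⟨b, hb⟩ := fpw_ub hK ((γ0, x0, l1) : Co K Γ L) q
  obtain ⟨r, hrq, ξ, hbξ, hξ, hnew⟩ := unb_coord hK hI e q γ0 x0 l (hin _) b
  have hξ1 : (((γ0, x0, l1) : Co K Γ L), ξ) ∉ r.s := by
    intro h
    rcases hnew _ _ (le_refl γ0) h with h1 | h1
    · exact absurd (hb ξ h1) (not_lt.2 hbξ.le)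
    · have h2 := congrArg Prod.fst h1
      have h3 : l1 = l := congrArg (fun z : Co K Γ L => z.2.2) h2
      exact hl h3.symm
  obtain ⟨γ1, hγ1⟩ := hB.gbdd {γ0} (by
    rw [Cardinal.mk_singleton]
    exact (Cardinal.one_le_aleph0.trans hK.unc.le).trans (Cardinal.cantor _).le)
  have hγ : γ0 < γ1 := hγ1 γ0 rfl
  obtain ⟨a, ha⟩ := nice_stage hK hE γ0 (fun y => {_p : Cd K Γ L | ξ < y})
  have hv : Vld (Le e γ0) x0 (e a) := by
    intro r' _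
    refine uf_tail (Rle_refl (Le_refl e γ0)) (Rle_trans (Le_trans γ0) (fun p q h => Le_tp h))
      (UF_stage hK hI e γ0) ξ _ r' ?_
    intro y hy
    rw [emb_Mem, ha]
    intro u _
    exact ⟨u, Le_refl e γ0 u, u, hy, Le_refl e γ0 u⟩
  have hcard : #(insert (((γ0, x0, l1) : Co K Γ L), a) r.f : Set (Co K Γ L × L)) < #K := by
    refine lt_of_le_of_lt Cardinal.mk_insert_le ?_
    exact Cardinal.add_lt_of_lt hK.unc.le r.hf (Cardinal.one_lt_aleph0.trans hK.unc)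
  let r1 : Cd K Γ L := ⟨r.t, r.s, insert (((γ0, x0, l1) : Co K Γ L), a) r.f, r.hs, hcard⟩
  have hr1 : LeT e r1 r := by
    intro γ
    rw [Le_iff]
    refine ⟨TpE_refl _, fun _ _ _ h => h, fun i c _ h => Set.mem_insert_of_mem _ h, ?_⟩
    intro i _ ξ' c h1 h2
    exact absurd h1 h2
  refine ⟨r1, LeT_trans e _ _ _ hr1 hrq, ξ, hξ, ?_⟩
  intro s hs hmem
  have h1 := (Le_iff e γ1 s r1).1 (hs γ1)
  have h2 := h1.2.2.2 (γ0, x0, l1) hγ ξ a hmem hξ1 (Set.mem_insert _ _) hv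
  have h3 := (ha ξ s).1 h2
  obtain ⟨u, -, c, hc, -⟩ := h3 s (Le_refl e γ0 s)
  exact lt_irrefl ξ hc

theorem fpow (hK : InO K) (hB : Big K Γ L) (hI : Ind K Γ L) {e : L → K → Set (Cd K Γ L)}
    (hE : Enu e) : FPow (LeT e) K L := by
  have hKne : Nonempty K := by
    rw [← Cardinal.mk_ne_zero_iff]
    exact (Cardinal.aleph0_pos.trans hK.unc).ne'
  have hΓne : Nonempty Γ := by
    rw [← Cardinal.mk_ne_zero_iff]
    exact ((Cardinal.aleph0_pos.trans hK.unc).trans_le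
      ((Cardinal.cantor _).le.trans hB.kg)).ne'
  obtain ⟨γ0⟩ := hΓne
  obtain ⟨k0, hk0⟩ : ∃ k0 : K, ∀ x, k0 ≤ x := by
    have hw : WellFounded ((· < ·) : K → K → Prop) := wellFounded_lt
    exact ⟨hw.min Set.univ Set.univ_nonempty, fun x => not_lt.1 (hw.not_lt_min Set.univ (Set.mem_univ x))⟩
  have hsm : ∀ (i : Co K Γ L) (ξ : K) (q p : Cd K Γ L), LeT e q p → (i, ξ) ∈ p.s →
      (i, ξ) ∈ q.s := by
    intro i ξ q p h hm
    obtain ⟨γ1, hγ1⟩ := hB.gbdd {i.1} (by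
      rw [Cardinal.mk_singleton]
      exact (Cardinal.one_le_aleph0.trans hK.unc.le).trans (Cardinal.cantor _).le)
    exact ((Le_iff e γ1 q p).1 (h γ1)).2.1 i ξ (hγ1 _ rfl) hm
  refine ⟨⟨fun z => {r | (((γ0, ((k0, fun _ => false) : Nd K), z.1) : Co K Γ L), z.2) ∈ r.s}, ?_⟩,
    ⟨fun z => e z.1 z.2, ?_⟩⟩
  · intro l l1 hl p q _
    obtain ⟨r1, hr1, ξ, h1, h2⟩ := fpw_distinct hK hB hI hE γ0 ((k0, fun _ => false) : Nd K) hk0
      l l1 hl q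
    refine ⟨r1, hr1, ξ, ?_⟩
    intro s hs hiff
    have h3 := hiff s (LeT_refl e s)
    have h4 := h3.1 (fun u hu => ⟨u, LeT_refl e u, r1, h1, LeT_trans e _ _ _ hu hs⟩)
    obtain ⟨u, hu, c, hc, huc⟩ := h4 s (LeT_refl e s)
    exact h2 u (LeT_trans e _ _ _ hu hs) (hsm _ _ _ _ huc hc)
  · intro S p q _
    obtain ⟨a, ha⟩ := nice_tot hK hE S
    exact ⟨q, LeT_refl e q, a, fun i r _ => (ha i r).symm⟩

end Pool.Agent.PolF
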