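import Pool.Agent.Lib.PolF.Dis
import Pool.Agent.Lib.PolF.Crk

/-!
# Fst: `K` is forced to be a strong limit

Decide all the statements `i ∈ g a` for `i < t`, `a < t1`, where `2 ^ #(Iio t) < #(Iio t1)`; the map
`a ↦ {i < t | i ∈ g a}` is not injective.
-/

set_option autoImplicit false
set_option linter.unusedSectionVars false
universe u

namespace Pool.Agent.PolF

open Cardinal

variable {K Γ L : Type u} [LinearOrder K] [WellFoundedLT K] [LinearOrder Γ] [WellFoundedLT Γ]
  [LinearOrder L] [WellFoundedLT L]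

theorem fstr_K (hK : InO K) [Nonempty Γ] (e : L → K → Set (Cd K Γ L)) : FStr (LeT e) K := by
  intro t g p q hqp
  have htr := LeT_trans e
  have hc : 2 ^ #(Set.Iio t) < #K := hK.pow _ (hK.iio t)
  obtain ⟨t1, ht1⟩ := hK.seg _ hc
  have hι : #(Set.Iio t1 × Set.Iio t) < #K := by
    rw [mk_prod, lift_id, lift_id]
    exact mul_lt_of_lt hK.unc.le (hK.iio t1) (hK.iio t)
  obtain ⟨r, hrq, hr⟩ := dist hK e hι
    (fun i r => Mem (LeT e) g (i.1.1, i.2.1) r ∨ Neg (LeT e) (Mem (LeT e) g (i.1.1, i.2.1)) r)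
    (fun i p q hqp h => h.elim (fun h => Or.inl (Mem_down htr hqp h))
      (fun h => Or.inr (Neg_down htr hqp h))) q (by
      intro i s _
      rcases Mem_dec (le := LeT e) g (i.1.1, i.2.1) s with ⟨s', hs', hm⟩ | h
      · exact ⟨s', hs', Or.inl hm⟩
      · exact ⟨s, LeT_refl e s, Or.inr h⟩)
  -- the map is not injective
  set Φ : Set.Iio t1 → Set (Set.Iio t) := fun a => {i | Mem (LeT e) g (a.1, i.1) r} with hΦ
  have hni : ¬ Function.Injective Φ := by
    intro hinj
    have := mk_le_of_injective hinj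
    rw [mk_set] at this
    exact absurd ht1 (not_lt.2 this)
  rw [Function.Injective] at hni
  push Not at hni
  obtain ⟨a, b, hab, hne⟩ := hni
  have key : ∀ a b : Set.Iio t1, Φ a = Φ b → ∀ i < t, ∀ s, LeT e s r →
      Mem (LeT e) g (a.1, i) s → Mem (LeT e) g (b.1, i) s := by
    intro a b hab i hi s hs hm
    rcases hr (a, ⟨i, hi⟩) with h | h
    · have h1 : (⟨i, hi⟩ : Set.Iio t) ∈ Φ a := h
      rw [hab] at h1
      exact Mem_down htr hs h1
    · exact absurd hm (h s hs)
  rcases lt_trichotomy a b with h | h | h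
  · exact ⟨r, hrq, ⟨(a.1, b.1), h⟩, fun i hi s hs => ⟨key a b hab i hi s hs, key b a hab.symm i hi s hs⟩⟩
  · exact absurd h hne
  · exact ⟨r, hrq, ⟨(b.1, a.1), h⟩, fun i hi s hs => ⟨key b a hab.symm i hi s hs, key a b hab i hi s hs⟩⟩

end Pool.Agent.PolF
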