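import Pool.Agent.Lib.PolF.Brn

/-!
# Sts: the index sets exist

PROOF. `Cardinal.mk_ord_toType`, `Cardinal.mk_Iio_ord_toType`; bounded sets: the cofinality of
`κ.ord`, `μ.ord`, `lam.ord` (regular cardinals; `Cardinal.isRegular_succ`): a set `S` of fewer elements is not cofinal,
so some `b` is a bound, not attained because there is no last element. `lpow`:
`lam ^ (2 ^ κ) = lam` for `lam = succ ρ`, `ρ = 2 ^ μ`, `ρ ^ (2 ^ κ) = ρ`: every function from a set of `2 ^ κ < lam`
elements to `lam.ord.ToType` is bounded, so the number of functions is at most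
`∑ b, #(Iio b) ^ (2 ^ κ) ≤ lam * ρ ^ (2 ^ κ) = lam`. `Ind_of`: `Rd` is nonempty (a sequence of height the
least element with `x = false`), `#κ.ord.ToType = κ`.
-/

set_option autoImplicit false
set_option linter.unusedSectionVars false
universe u

namespace Pool.Agent.PolF

open Cardinal

variable {K Γ L : Type u} [LinearOrder K] [WellFoundedLT K] [LinearOrder Γ] [WellFoundedLT Γ]
  [LinearOrder L] [WellFoundedLT L]

private theorem sts_bdd {c : Cardinal.{u}} (hc : c.IsRegular) (S : Set c.ord.ToType)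
    (hS : #S < c) : ∃ b, ∀ s ∈ S, s < b := by
  by_contra hcon
  push Not at hcon
  have h1 : IsCofinal S := fun a => by
    obtain ⟨s, hs, h⟩ := hcon a
    exact ⟨s, hs, h⟩
  have h2 := Order.cof_le h1
  rw [Ordinal.cof_toType, hc.cof_ord] at h2
  exact absurd hS (not_lt.mpr h2)

private theorem sts_iio {c : Cardinal.{u}} (b : c.ord.ToType) : #(Set.Iio b) < c := by
  simpa using mk_Iio_lt b

theorem InO_toType (κ : Cardinal.{u}) (hκ : κ.IsInaccessible) : InO κ.ord.ToType where
  bdd S hS := sts_bdd hκ.isRegular S (by simpa using hS)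
  iio b := by simpa using sts_iio b
  pow c hc := by
    rw [mk_ord_toType] at hc ⊢
    exact hκ.isStrongLimit.isStrongPrelimit hc
  unc := by
    rw [mk_ord_toType]
    exact hκ.aleph0_lt

/-- a power of a successor -/
private theorem sts_pow (X L : Type u) [LinearOrder L] (ρ : Cardinal.{u}) (hρ : ℵ₀ ≤ ρ)
    (hL : #L = Order.succ ρ) (hb : ∀ S : Set L, #S < #L → ∃ b, ∀ s ∈ S, s < b)
    (hi : ∀ b : L, #(Set.Iio b) < #L) (hX : #X ≤ ρ) (hpow : ρ ^ #X = ρ) (hX0 : 1 ≤ #X) :
    #L ^ #X = #L := by
  apply le_antisymm _ (self_le_power _ hX0)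
  have h1 : ∀ f : X → L, ∃ b : L, ∀ x, f x < b := by
    intro f
    obtain ⟨b, hb⟩ := hb (Set.range f) (lt_of_le_of_lt (mk_range_le.trans hX)
      (by rw [hL]; exact Order.lt_succ ρ))
    exact ⟨b, fun x => hb _ ⟨x, rfl⟩⟩
  choose B hB using h1
  have h2 : #(X → L) ≤ #(Σ b : L, X → Set.Iio b) := by
    refine mk_le_of_injective (f := fun f => ⟨B f, fun x => ⟨f x, hB f x⟩⟩) ?_
    intro f g hfg
    have h3 : ∀ (p q : Σ b : L, X → Set.Iio b), p = q → ∀ x, (p.2 x : L) = (q.2 x : L) := by
      rintro p q rfl x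
      rfl
    funext x
    exact h3 _ _ hfg x
  have h3 : #(Σ b : L, X → Set.Iio b) ≤ #L := by
    rw [mk_sigma]
    calc sum (fun b : L => #(X → Set.Iio b)) ≤ sum (fun _ : L => ρ) := by
          refine sum_le_sum _ _ fun b => ?_
          rw [← power_def, ← hpow]
          refine power_le_power_right ?_
          have := hi b
          rw [hL] at this
          exact Order.lt_succ_iff.mp this
      _ = #L * ρ := by rw [sum_const']
      _ ≤ #L * #L := by
          refine mul_le_mul_right ?_ _
          rw [hL]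
          exact Order.le_succ ρ
      _ = #L := mul_eq_self (by rw [hL]; exact hρ.trans (Order.le_succ ρ))
  rw [power_def]
  exact h2.trans h3

theorem Big_toType (κ : Cardinal.{u}) (hκ : κ.IsInaccessible) (μ lam : Cardinal.{u})
    (hμ : μ = Order.succ (2 ^ κ)) (hlam : lam = Order.succ (2 ^ μ)) :
    Big κ.ord.ToType μ.ord.ToType lam.ord.ToType := by
  have h0 : ℵ₀ ≤ κ := hκ.aleph0_lt.le
  have h1 : ℵ₀ ≤ (2 : Cardinal.{u}) ^ κ := h0.trans (cantor κ).le
  have hμr : μ.IsRegular := by
    rw [hμ]
    exact isRegular_succ h1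
  have h2 : ℵ₀ ≤ μ := by
    rw [hμ]
    exact h1.trans (Order.le_succ _)
  have h3 : ℵ₀ ≤ (2 : Cardinal.{u}) ^ μ := h2.trans (cantor μ).le
  have hlr : lam.IsRegular := by
    rw [hlam]
    exact isRegular_succ h3
  have h4 : (2 : Cardinal.{u}) ^ κ ≤ μ := by
    rw [hμ]
    exact Order.le_succ _
  refine ⟨?_, ?_, ?_, ?_, ?_, ?_⟩
  · intro S hS
    rw [mk_ord_toType] at hS
    exact sts_bdd hμr S (lt_of_le_of_lt hS (by rw [hμ]; exact Order.lt_succ _))
  · intro S hS
    rw [mk_ord_toType] at hS
    exact sts_bdd hlr S hS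
  · intro b
    rw [mk_ord_toType]
    exact sts_iio b
  · rw [mk_ord_toType κ]
    have h5 := sts_pow (Set κ.ord.ToType) lam.ord.ToType (2 ^ μ) h3
      (by rw [mk_ord_toType, hlam])
      (fun S hS => by
        rw [mk_ord_toType] at hS
        exact sts_bdd hlr S hS)
      (fun b => by
        rw [mk_ord_toType]
        exact sts_iio b)
      (by
        rw [mk_set, mk_ord_toType]
        exact h4.trans (cantor μ).le)
      (by
        rw [mk_set, mk_ord_toType, ← power_mul]
        congr 1
        exact mul_eq_left h2 h4 (by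
          intro h
          rw [h] at h1
          exact absurd h1 (not_le.mpr aleph0_pos)))
      (by
        rw [mk_set, mk_ord_toType]
        exact one_le_aleph0.trans h1)
    rw [mk_set, mk_ord_toType κ] at h5
    exact h5
  · rw [mk_ord_toType, mk_ord_toType]
    exact h4
  · rw [mk_ord_toType, mk_ord_toType, hlam]
    exact (cantor μ).trans (Order.lt_succ _)

theorem Ind_of (κ : Cardinal.{u}) (hκ : κ.IsInaccessible) (h : Indestr κ) (Γ L : Type u)
    [LinearOrder Γ] : Ind κ.ord.ToType Γ L := by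
  intro le hrefl htrans hdir
  rw [mk_ord_toType] at hdir
  have hne : Nonempty κ.ord.ToType := by
    rw [← mk_ne_zero_iff, mk_ord_toType]
    exact hκ.ne_zero
  obtain ⟨k0⟩ := hne
  let t : Tp κ.ord.ToType :=
    { ht := k0
      x := fun _ _ => false
      coh := fun b _ a _ ha => by
        obtain ⟨x, hx⟩ := ha.1
        exact ⟨x, hx, fun y _ _ => rfl⟩ }
  let p : Cd κ.ord.ToType Γ L :=
    { t := t
      s := ∅
      f := ∅
      hs := by
        rw [mk_eq_zero, mk_ord_toType]
        exact hκ.pos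
      hf := by
        rw [mk_eq_zero, mk_ord_toType]
        exact hκ.pos }
  let r : Rd κ.ord.ToType Γ L :=
    { p := p
      F := fun _ => false
      br := fun a _ ha => by
        obtain ⟨x, hx⟩ := ha.1
        exact ⟨x, hx, fun y _ _ => rfl⟩ }
  exact h (Rd κ.ord.ToType Γ L) le ⟨r⟩ hrefl htrans hdir

end Pool.Agent.PolF
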