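import Pool.Agent.Lib.PolF.Frk
import Pool.Agent.Lib.PolF.Fst
import Pool.Agent.Lib.PolF.Fnw
import Pool.Agent.Lib.PolF.Frl
import Pool.Agent.Lib.PolF.Fpw
import Pool.Agent.Lib.PolF.Fpo
import Pool.Agent.Lib.PolF.Sts
import Pool.Agent.Lib.PolF.Crd

/-!
# Main: assembly
-/

set_option autoImplicit false
universe u

namespace Pool.Agent.PolF

open Cardinal

theorem main_pol (κ : Cardinal.{u}) (hκ : κ.IsInaccessible) (h : Indestr κ) :
    ∃ (lam : Cardinal.{u}) (P : Type u) (le : P → P → Prop), Nonempty P ∧ (∀ p, le p p) ∧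
      (∀ p q r, le p q → le q r → le p r) ∧
      FReg le κ.ord.ToType ∧ FStr le κ.ord.ToType ∧ FNwc le κ.ord.ToType ∧
      FReg le lam.ord.ToType ∧ FPow le κ.ord.ToType lam.ord.ToType ∧
      FPol le κ.ord.ToType lam.ord.ToType := by
  obtain ⟨μ, hμ⟩ : ∃ μ : Cardinal.{u}, μ = Order.succ (2 ^ κ) := ⟨_, rfl⟩
  obtain ⟨lam, hlam⟩ : ∃ lam : Cardinal.{u}, lam = Order.succ (2 ^ μ) := ⟨_, rfl⟩
  have hK := InO_toType κ hκ
  have hB := Big_toType κ hκ μ lam hμ hlam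
  have hI := Ind_of κ hκ h μ.ord.ToType lam.ord.ToType
  obtain ⟨e, hE⟩ := enu_ex hK hB
  obtain ⟨g0, -⟩ := hB.gbdd ∅ (by simp)
  have : Nonempty μ.ord.ToType := ⟨g0⟩
  obtain ⟨k0, -⟩ := hK.bdd ∅ (by
    have := hK.unc
    simp only [Cardinal.mk_eq_zero]
    exact lt_of_le_of_lt zero_le this)
  refine ⟨lam, Cd κ.ord.ToType μ.ord.ToType lam.ord.ToType, LeT e, ?_, LeT_refl e, LeT_trans e,
    freg_K hK e, fstr_K hK e, fnwc hK e, freg_L hK hB e, fpow hK hB hI hE, fpol hK hB hI hE⟩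
  refine ⟨⟨⟨k0, fun _ _ => false, fun b _ a _ ha => ?_⟩, ∅, ∅, ?_, ?_⟩⟩
  · obtain ⟨x, hx⟩ := ha.1
    exact ⟨x, hx, fun _ _ _ => rfl⟩
  · have := hK.unc
    simp only [Cardinal.mk_eq_zero]
    exact lt_of_le_of_lt zero_le this
  · have := hK.unc
    simp only [Cardinal.mk_eq_zero]
    exact lt_of_le_of_lt zero_le this

end Pool.Agent.PolF
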