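import Pool.Agent.Lib.PolF.Bas

/-!
# Brn: branches through the coherent sequence

PROOF. `Eqs_trans`: the maximum of the two bounds. `br_top`: `F = p.t.x p.t.ht` (for `a < ht` use `coh`, for
`a = ht` use `Eqs_refl`). `proj`: let `G = q.t.x q.t.ht`, `F y = r.F y` if `y < r.p.t.ht`, else `v` if
`y = c`, else `G y`. For a limit `a ≤ q.t.ht`: if `a ≤ r.p.t.ht` then `F = r.F` below `a` and `r.br`, `q.t.x a = r.p.t.x a`; if
`r.p.t.ht < a` then `F` and `G` agree on `y < a` above `r.p.t.ht` and above `c` (if `c < a`; the bound is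
`r.p.t.ht` or the element above `c` given by `LimK a`), and `Eqs a G (q.t.x a)` by `coh` or
`Eqs_refl`. `InT_ex`: `F y = x.2 y` for `y < x.1`, `p.t.x p.t.ht y` otherwise; same argument.
`ExtN_InT`: for `a ≤ x.1` limit: `x.2` and `r.F` agree below `a`, and `r.br`. `hgt`: if `b ≤ p.t.ht`
take `p`; otherwise height `b` and `x y = p.t.x y` for `y ≤ p.t.ht`, `x y = p.t.x p.t.ht` for
`y > p.t.ht` (`coh`: for `p.t.ht < a < y` the two functions are equal; for `a ≤ p.t.ht` use `coh` of `p.t` or equality).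
-/

set_option autoImplicit false
set_option linter.unusedSectionVars false
universe u

namespace Pool.Agent.PolF

open Cardinal

variable {K Γ L : Type u} [LinearOrder K] [WellFoundedLT K] [LinearOrder Γ] [WellFoundedLT Γ]
  [LinearOrder L] [WellFoundedLT L]

theorem Eqs_refl {a : K} (h : LimK a) (f : K → Bool) : Eqs a f f := by
  obtain ⟨x, hx⟩ := h.1
  exact ⟨x, hx, fun _ _ _ => rfl⟩

theorem Eqs_symm {a : K} {f g : K → Bool} (h : Eqs a f g) : Eqs a g f := by
  obtain ⟨b, hb, hh⟩ := h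
  exact ⟨b, hb, fun x hx hxa => (hh x hx hxa).symm⟩

theorem Eqs_trans {a : K} {f g h : K → Bool} (h1 : Eqs a f g) (h2 : Eqs a g h) : Eqs a f h := by
  obtain ⟨b, hb, hh⟩ := h1
  obtain ⟨c, hc, hh'⟩ := h2
  exact ⟨max b c, max_lt hb hc, fun x hx hxa =>
    (hh x ((le_max_left _ _).trans hx) hxa).trans (hh' x ((le_max_right _ _).trans hx) hxa)⟩

private theorem top_br (t : Tp K) (a : K) (ha : a ≤ t.ht) (hl : LimK a) :
    Eqs a (t.x t.ht) (t.x a) := by
  rcases ha.lt_or_eq with h | h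
  · exact t.coh t.ht le_rfl a h hl
  · rw [← h]
    exact Eqs_refl hl _

theorem br_top (p : Cd K Γ L) : ∃ r : Rd K Γ L, r.p = p :=
  ⟨⟨p, p.t.x p.t.ht, fun a ha hl => top_br p.t a ha hl⟩, rfl⟩

open Classical in
/-- the branch of `r` continues through every longer sequence, with one value prescribed -/
theorem proj (r : Rd K Γ L) (q : Cd K Γ L) (h : TpE q.t r.p.t) (c : K) (v : Bool) :
    ∃ r' : Rd K Γ L, r'.p = q ∧ (∀ x < r.p.t.ht, r'.F x = r.F x) ∧
      (r.p.t.ht ≤ c → c < q.t.ht → r'.F c = v) := by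
  refine ⟨⟨q, fun y => if y < r.p.t.ht then r.F y else if y = c then v else q.t.x q.t.ht y,
    fun a ha hl => ?_⟩, rfl, fun x hx => if_pos hx, fun h1 _ => ?_⟩
  · rcases le_or_gt a r.p.t.ht with har | har
    · rw [h.2 a har]
      obtain ⟨b, hb, hh⟩ := r.br a har hl
      refine ⟨b, hb, fun x hx hxa => ?_⟩
      rw [← hh x hx hxa]
      exact if_pos (hxa.trans_le har)
    · refine Eqs_trans ?_ (top_br q.t a ha hl)
      rcases lt_or_ge c a with hc | hc
      · obtain ⟨y, hy, hya⟩ := hl.2 _ (max_lt har hc)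
        refine ⟨y, hya, fun x hx hxa => ?_⟩
        have h1 : ¬ x < r.p.t.ht := not_lt.2 (((le_max_left _ _).trans hy.le).trans hx)
        have h2 : x ≠ c := (((le_max_right _ _).trans_lt hy).trans_le hx).ne'
        simp only [if_neg h1, if_neg h2]
      · refine ⟨r.p.t.ht, har, fun x hx hxa => ?_⟩
        have h1 : ¬ x < r.p.t.ht := not_lt.2 hx
        have h2 : x ≠ c := (hxa.trans_le hc).ne
        simp only [if_neg h1, if_neg h2]
  · simp only [if_neg (not_lt.2 h1), if_true]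

open Classical in
theorem InT_ex (p : Cd K Γ L) (x : Nd K) (h : InT x p.t) : ∃ r : Rd K Γ L, r.p = p ∧ ExtN x r := by
  refine ⟨⟨p, fun y => if y < x.1 then x.2 y else p.t.x p.t.ht y, fun a ha hl => ?_⟩, rfl,
    h.1, fun y hy => if_pos hy⟩
  rcases le_or_gt a x.1 with hax | hax
  · obtain ⟨b, hb, hh⟩ := h.2 a hax hl
    refine ⟨b, hb, fun y hy hya => ?_⟩
    rw [← hh y hy hya]
    exact if_pos (hya.trans_le hax)
  · refine Eqs_trans ?_ (top_br p.t a ha hl)
    exact ⟨x.1, hax, fun y hy _ => if_neg (not_lt.2 hy)⟩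

theorem ExtN_InT (x : Nd K) (r : Rd K Γ L) (h : ExtN x r) : InT x r.p.t := by
  refine ⟨h.1, fun a ha hl => ?_⟩
  obtain ⟨b, hb, hh⟩ := r.br a (ha.trans h.1) hl
  exact ⟨b, hb, fun y hy hya => (h.2 y (hya.trans_le ha)).symm.trans (hh y hy hya)⟩

theorem InT_mono {x : Nd K} {s t : Tp K} (h : TpE s t) (hx : InT x t) : InT x s := by
  refine ⟨hx.1.trans h.1, fun a ha hl => ?_⟩
  rw [h.2 a (ha.trans hx.1)]
  exact hx.2 a ha hl

open Classical in
/-- conditions can be made longer -/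
theorem hgt (e : L → K → Set (Cd K Γ L)) (p : Cd K Γ L) (b : K) :
    ∃ q : Cd K Γ L, b ≤ q.t.ht ∧ (∀ γ, Le e γ q p) ∧ q.s = p.s ∧ q.f = p.f := by
  rcases le_or_gt b p.t.ht with hb | hb
  · exact ⟨p, hb, fun γ => Le_refl e γ p, rfl, rfl⟩
  · let t' : Tp K :=
      { ht := b
        x := fun y => if y ≤ p.t.ht then p.t.x y else p.t.x p.t.ht
        coh := fun c hc a hac hl => by
          rcases le_or_gt c p.t.ht with hc' | hc'
          · rw [if_pos hc', if_pos (hac.le.trans hc')]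
            exact p.t.coh c hc' a hac hl
          · rw [if_neg (not_le.2 hc')]
            rcases le_or_gt a p.t.ht with ha | ha
            · rw [if_pos ha]
              exact top_br p.t a ha hl
            · rw [if_neg (not_le.2 ha)]
              exact Eqs_refl hl _ }
    refine ⟨⟨t', p.s, p.f, p.hs, p.hf⟩, le_rfl, fun γ => ?_, rfl, rfl⟩
    rw [Le_iff]
    exact ⟨⟨hb.le, fun y hy => if_pos hy⟩, fun _ _ _ h => h, fun _ _ _ h => h,
      fun _ _ _ _ h h' => absurd h h'⟩

end Pool.Agent.PolF
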