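import Pool.Agent.Lib.PolF.Crk

/-!
# Ccc: chain condition (closing-off argument)

PROOF. A pattern over a set `Z` of conditions is `(t, c, σ)`: `t : Tp K`, `c` a set of coordinates, `c ⊆ ⋃ z ∈ Z, Dm z`,
`#c < #K`, `σ : Set (Co × K)`, `σ ⊆ c ×ˢ univ`, `#σ < #K`. `d ∈ D` realizes it if `d.t = t`, `c ⊆ Dm d` and
`∀ i ∈ c, ∀ ξ, (i, ξ) ∈ d.s ↔ (i, ξ) ∈ σ`. If `#Z ≤ 2 ^ #K` there are at most `2 ^ #K` patterns
(`#(Tp K) ≤ 2 ^ #K`, `Dm z` has `< #K` elements, `InO.tiny`). `N Z` = `Z` together with one realizer in `D` of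
each realizable pattern over `Z`. Iterate along `K`: `Z y = ⋃ x < y, N (Z x)` (well-founded recursion; all
`#(Z y) ≤ 2 ^ #K`), `D0 = ⋃ y, Z y ⊆ D`. Let `d ∈ D`, `c = Dm d ∩ ⋃ z ∈ D0, Dm z`, `#c < #K`; each
element of `c` is in `Dm z` for some `z ∈ Z y`; by `hK.bdd` one `y` works for all of `c` (`Z` is
increasing). The pattern `(d.t, c, d.s restricted to c)` over `Z y` is realized by `d`, so by some
`d0 ∈ N (Z y) ⊆ D0`. If `i ∈ Dm d ∩ Dm d0` then `i ∈ c`, so `(i, ξ) ∈ d.s ↔ (i, ξ) ∈ d0.s`.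
-/

set_option autoImplicit false
set_option linter.unusedSectionVars false
universe u

namespace Pool.Agent.PolF

open Cardinal

variable {K Γ L : Type u} [LinearOrder K] [WellFoundedLT K] [LinearOrder Γ] [WellFoundedLT Γ]
  [LinearOrder L] [WellFoundedLT L]

private theorem dm_lt (hK : InO K) (d : Cd K Γ L) : #(Dm d) < #K := by
  have h1 : Dm d ⊆ (Prod.fst '' d.s) ∪ (Prod.fst '' d.f) := by
    rintro i (⟨ξ, h⟩ | ⟨a, h⟩)
    · exact Or.inl ⟨_, h, rfl⟩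
    · exact Or.inr ⟨_, h, rfl⟩
  exact (mk_le_mk_of_subset h1).trans_lt
    (hK.union_lt (mk_image_le.trans_lt d.hs) (mk_image_le.trans_lt d.hf))

/-- the coherent sequence of `d` and the trace of `d.s` on the set `C` of coordinates -/
private def tr (C : Set (Co K Γ L)) (d : Cd K Γ L) : Tp K × {s : Set (↥C × K) // #s < #K} :=
  (d.t, ⟨(fun z : ↥C × K => ((z.1 : Co K Γ L), z.2)) ⁻¹' d.s,
    (mk_preimage_of_injective _ _ (by
      rintro ⟨a, b⟩ ⟨a', b'⟩ h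
      have h1 := (Prod.mk.injEq _ _ _ _).mp h
      exact Prod.ext (Subtype.ext h1.1) h1.2)).trans_lt d.hs⟩)

private theorem tr_s {C : Set (Co K Γ L)} {d d' : Cd K Γ L} (h : tr C d = tr C d')
    {i : Co K Γ L} (hi : i ∈ C) (ξ : K) : (i, ξ) ∈ d.s ↔ (i, ξ) ∈ d'.s := by
  have h1 := congrArg (fun z => (z.2 : Set (↥C × K))) h
  have h2 := Set.ext_iff.1 h1 (⟨i, hi⟩, ξ)
  exact h2

theorem cc (hK : InO K) (D : Set (Cd K Γ L)) :
    ∃ D0 ⊆ D, #D0 ≤ 2 ^ #K ∧ ∀ d ∈ D, ∃ d0 ∈ D0, Agr d d0 := by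
  have hinf : ℵ₀ ≤ #K := hK.unc.le
  have hKθ : #K ≤ 2 ^ #K := (cantor _).le
  have hθ : ℵ₀ ≤ (2 : Cardinal.{u}) ^ #K := hinf.trans hKθ
  have hmul : (2 : Cardinal.{u}) ^ #K * 2 ^ #K = 2 ^ #K := mul_eq_self hθ
  have hU : ∀ {ι X : Type u} (s : Set ι) (A : ι → Set X), #s ≤ 2 ^ #K →
      (∀ i ∈ s, #(A i) ≤ 2 ^ #K) → #(⋃ i ∈ s, A i : Set X) ≤ 2 ^ #K := by
    intro ι X s A hs hA
    refine (mk_biUnion_le A s).trans ?_
    calc #s * ⨆ x : s, #(A x.1) ≤ 2 ^ #K * 2 ^ #K :=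
          mul_le_mul' hs (ciSup_le' fun x => hA x.1 x.2)
      _ = 2 ^ #K := hmul
  choose S hSD hS using fun C : Set (Co K Γ L) => Set.exists_subset_bijOn D (tr C)
  have hScard : ∀ C : Set (Co K Γ L), #C ≤ 2 ^ #K → #(S C) ≤ 2 ^ #K := by
    intro C hC
    have h1 : #(S C) = #(tr C '' D) := mk_congr ((hS C).equiv _)
    rw [h1]
    refine (mk_set_le _).trans ?_
    rw [mk_prod, lift_id, lift_id]
    have h2 : #(↥C × K) ≤ 2 ^ #K := by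
      rw [mk_prod, lift_id, lift_id]
      calc #C * #K ≤ 2 ^ #K * 2 ^ #K := mul_le_mul' hC hKθ
        _ = 2 ^ #K := hmul
    calc #(Tp K) * #{s : Set (↥C × K) // #s < #K} ≤ 2 ^ #K * 2 ^ #K :=
          mul_le_mul' hK.card_Tp (hK.tiny _ h2)
      _ = 2 ^ #K := hmul
  let Cov : Set (Cd K Γ L) → Set (Co K Γ L) := fun Z => ⋃ z ∈ Z, Dm z
  have hCov : ∀ Z : Set (Cd K Γ L), #Z ≤ 2 ^ #K → #(Cov Z) ≤ 2 ^ #K := fun Z hZ =>
    hU Z (fun z => Dm z) hZ fun z _ => (dm_lt hK z).le.trans hKθ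
  let N : Set (Cd K Γ L) → Set (Cd K Γ L) := fun Z => (Z ∩ D) ∪ S (Cov Z)
  have hND : ∀ Z, N Z ⊆ D := by
    rintro Z z (hz | hz)
    · exact hz.2
    · exact hSD _ hz
  have hNcard : ∀ Z : Set (Cd K Γ L), #Z ≤ 2 ^ #K → #(N Z) ≤ 2 ^ #K := by
    intro Z hZ
    refine (mk_union_le _ _).trans ?_
    calc #(Z ∩ D : Set (Cd K Γ L)) + #(S (Cov Z)) ≤ 2 ^ #K + 2 ^ #K :=
          add_le_add ((mk_le_mk_of_subset Set.inter_subset_left).trans hZ)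
            (hScard _ (hCov Z hZ))
      _ = 2 ^ #K := add_eq_self hθ
  obtain ⟨Z, hZ⟩ : ∃ Z : K → Set (Cd K Γ L), ∀ y, Z y = ⋃ x ∈ Set.Iio y, N (Z x) :=
    ⟨(wellFounded_lt : WellFounded ((· < ·) : K → K → Prop)).fix
      (fun y ih => ⋃ (x : K) (h : x < y), N (ih x h)),
      fun y => WellFounded.fix_eq _ _ y⟩
  have hZD : ∀ y, Z y ⊆ D := by
    intro y z hz
    rw [hZ] at hz
    obtain ⟨x, -, hx⟩ := Set.mem_iUnion₂.1 hz
    exact hND _ hx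
  have hZcard : ∀ y, #(Z y) ≤ 2 ^ #K := by
    intro y
    induction y using WellFoundedLT.induction with
    | ind y ih =>
      rw [hZ]
      exact hU (Set.Iio y) (fun x => N (Z x)) ((hK.iio y).le.trans hKθ)
        fun x hx => hNcard _ (ih x hx)
  have hmono : ∀ x y, x < y → N (Z x) ⊆ Z y := by
    intro x y hxy z hz
    rw [hZ y]
    exact Set.mem_iUnion₂.2 ⟨x, hxy, hz⟩
  refine ⟨⋃ y ∈ (Set.univ : Set K), N (Z y), ?_, ?_, ?_⟩
  · intro z hz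
    obtain ⟨y, -, hy⟩ := Set.mem_iUnion₂.1 hz
    exact hND _ hy
  · exact hU Set.univ (fun y => N (Z y)) (by rw [mk_univ]; exact hKθ)
      fun y _ => hNcard _ (hZcard y)
  · intro d hd
    set D0 := ⋃ y ∈ (Set.univ : Set K), N (Z y) with hD0
    set c := Dm d ∩ Cov D0 with hc
    have hcl : #c < #K := (mk_le_mk_of_subset Set.inter_subset_left).trans_lt (dm_lt hK d)
    have hy : ∀ i : Co K Γ L, ∃ y : K, i ∈ c → ∃ z ∈ N (Z y), i ∈ Dm z := by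
      intro i
      by_cases hi : i ∈ c
      · obtain ⟨z, hz, hiz⟩ := Set.mem_iUnion₂.1 hi.2
        obtain ⟨y, -, hy⟩ := Set.mem_iUnion₂.1 hz
        exact ⟨y, fun _ => ⟨z, hy, hiz⟩⟩
      · obtain ⟨y⟩ : Nonempty K := by
          rw [← mk_ne_zero_iff]
          exact (aleph0_pos.trans hK.unc).ne'
        exact ⟨y, fun h => absurd h hi⟩
    choose Y hY using hy
    obtain ⟨b, hb⟩ := hK.bdd (Y '' c) (mk_image_le.trans_lt hcl)
    have hcb : c ⊆ Cov (Z b) := by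
      intro i hi
      obtain ⟨z, hz, hiz⟩ := hY i hi
      exact Set.mem_iUnion₂.2 ⟨z, hmono _ _ (hb _ ⟨i, hi, rfl⟩) hz, hiz⟩
    obtain ⟨d0, hd0, htr⟩ := (hS (Cov (Z b))).surjOn ⟨d, hd, rfl⟩
    have hd0N : d0 ∈ D0 := Set.mem_iUnion₂.2 ⟨b, Set.mem_univ _, Or.inr hd0⟩
    refine ⟨d0, hd0N, ?_, ?_⟩
    · exact (congrArg Prod.fst htr).symm
    · intro i hi hi0 ξ
      have hic : i ∈ c := ⟨hi, Set.mem_iUnion₂.2 ⟨d0, hd0N, hi0⟩⟩
      exact (tr_s htr (hcb hic) ξ).symm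

end Pool.Agent.PolF
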