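import Pool.Agent.Lib.PolF.Frc

/-!
# The conditions

`K` plays the role of the inaccessible cardinal, `Γ` (a well order, of regular type bigger than
`2 ^ #K`) indexes the stages of the iteration, `L` (of regular type, `#L ^ (2 ^ #K) = #L`) indexes the
dummy coordinates and the labels of the promises; `e : L → K → Set (Cd K Γ L)` enumerates the small
names of subsets of `K`.
-/

set_option autoImplicit false
universe u

namespace Pool.Agent.PolF

open Cardinal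

/-- `K` is a well order of inaccessible type -/
structure InO (K : Type u) [LinearOrder K] [WellFoundedLT K] : Prop where
  bdd : ∀ S : Set K, #S < #K → ∃ b, ∀ s ∈ S, s < b
  iio : ∀ b : K, #(Set.Iio b) < #K
  pow : ∀ c : Cardinal.{u}, c < #K → 2 ^ c < #K
  unc : ℵ₀ < #K

/-- the index sets are big enough -/
structure Big (K Γ L : Type u) [LinearOrder K] [WellFoundedLT K] [LinearOrder Γ] [WellFoundedLT Γ]
    [LinearOrder L] [WellFoundedLT L] : Prop where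
  gbdd : ∀ S : Set Γ, #S ≤ 2 ^ #K → ∃ b, ∀ s ∈ S, s < b
  lbdd : ∀ S : Set L, #S < #L → ∃ b, ∀ s ∈ S, s < b
  liio : ∀ b : L, #(Set.Iio b) < #L
  lpow : #L ^ (2 ^ #K : Cardinal.{u}) = #L
  kg : 2 ^ #K ≤ #Γ
  gl : #Γ < #L

/-- `a` is a limit -/
def LimK {K : Type u} [LinearOrder K] (a : K) : Prop := (∃ x, x < a) ∧ ∀ x < a, ∃ y, x < y ∧ y < a

/-- `f = g` below `a`, modulo a bounded subset of `a` -/
def Eqs {K : Type u} [LinearOrder K] (a : K) (f g : K → Bool) : Prop :=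
  ∃ b < a, ∀ x, b ≤ x → x < a → f x = g x

/-- coherent sequences of height `ht` -/
structure Tp (K : Type u) [LinearOrder K] where
  ht : K
  x : K → K → Bool
  coh : ∀ b ≤ ht, ∀ a < b, LimK a → Eqs a (x b) (x a)

/-- `q` extends `p` -/
def TpE {K : Type u} [LinearOrder K] (q p : Tp K) : Prop :=
  p.ht ≤ q.ht ∧ ∀ b ≤ p.ht, q.x b = p.x b

/-- nodes: a height and a function -/
abbrev Nd (K : Type u) := K × (K → Bool)

/-- coordinates: stage, node, dummy index -/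
abbrev Co (K Γ L : Type u) := Γ × Nd K × L

/-- conditions -/
structure Cd (K Γ L : Type u) [LinearOrder K] where
  t : Tp K
  /-- the elements decided to belong to the generic sets -/
  s : Set (Co K Γ L × K)
  /-- the promises -/
  f : Set (Co K Γ L × L)
  hs : #s < #K
  hf : #f < #K

/-- conditions together with a branch through the generic tree -/
structure Rd (K Γ L : Type u) [LinearOrder K] where
  p : Cd K Γ L
  F : K → Bool
  br : ∀ a ≤ p.t.ht, LimK a → Eqs a F (p.t.x a)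

variable {K Γ L : Type u} [LinearOrder K] [WellFoundedLT K] [LinearOrder Γ] [WellFoundedLT Γ]
  [LinearOrder L] [WellFoundedLT L]

/-- the order of `Rd` -/
def Rle (le : Cd K Γ L → Cd K Γ L → Prop) (q p : Rd K Γ L) : Prop :=
  le q.p p.p ∧ ∀ x < p.p.t.ht, q.F x = p.F x

open Classical in
/-- a name of an ultrafilter over `Rd`, if there is one -/
noncomputable def UFof (le : Cd K Γ L → Cd K Γ L → Prop) : (K → Set (Rd K Γ L)) → Rd K Γ L → Prop :=
  if h : ∃ U : (K → Set (Rd K Γ L)) → Rd K Γ L → Prop, IsUF (Rle le) U then h.choose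
  else fun _ _ => False

/-- a `Cd`-name as an `Rd`-name -/
def emb (le : Cd K Γ L → Cd K Γ L → Prop) (A : K → Set (Cd K Γ L)) (x : K) : Set (Rd K Γ L) :=
  {r | Mem le A x r.p}

/-- the branch of `r` passes through the node `x` -/
def ExtN (x : Nd K) (r : Rd K Γ L) : Prop := x.1 ≤ r.p.t.ht ∧ ∀ y < x.1, r.F y = x.2 y

/-- the name `A` is forced into the ultrafilter by the node `x` -/
def Vld (le : Cd K Γ L → Cd K Γ L → Prop) (x : Nd K) (A : K → Set (Cd K Γ L)) : Prop :=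
  ∀ r : Rd K Γ L, ExtN x r → UFof le (emb le A) r

/-- the order of the stage `γ`, from the orders of the stages before -/
def LeF (e : L → K → Set (Cd K Γ L)) (γ : Γ)
    (ih : ∀ β : Γ, β < γ → Cd K Γ L → Cd K Γ L → Prop) (q p : Cd K Γ L) : Prop :=
  TpE q.t p.t ∧ (∀ (i : Co K Γ L) ξ, i.1 < γ → (i, ξ) ∈ p.s → (i, ξ) ∈ q.s) ∧
    (∀ (i : Co K Γ L) a, i.1 < γ → (i, a) ∈ p.f → (i, a) ∈ q.f) ∧
    ∀ (i : Co K Γ L) (h : i.1 < γ) ξ a, (i, ξ) ∈ q.s → (i, ξ) ∉ p.s → (i, a) ∈ p.f →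
      Vld (ih i.1 h) i.2.1 (e a) → Mem (ih i.1 h) (e a) ξ q

/-- the order of the stage `γ` -/
noncomputable def Le (e : L → K → Set (Cd K Γ L)) : Γ → Cd K Γ L → Cd K Γ L → Prop :=
  (wellFounded_lt : WellFounded ((· < ·) : Γ → Γ → Prop)).fix
    (fun γ ih => LeF e γ (fun β h => ih β h))

/-- the order of the whole iteration -/
def LeT (e : L → K → Set (Cd K Γ L)) (q p : Cd K Γ L) : Prop := ∀ γ : Γ, Le e γ q p

omit [WellFoundedLT K] [LinearOrder L] [WellFoundedLT L] in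
theorem Le_iff (e : L → K → Set (Cd K Γ L)) (γ : Γ) (q p : Cd K Γ L) :
    Le e γ q p ↔ TpE q.t p.t ∧ (∀ (i : Co K Γ L) ξ, i.1 < γ → (i, ξ) ∈ p.s → (i, ξ) ∈ q.s) ∧
    (∀ (i : Co K Γ L) a, i.1 < γ → (i, a) ∈ p.f → (i, a) ∈ q.f) ∧
    ∀ (i : Co K Γ L), i.1 < γ → ∀ ξ a, (i, ξ) ∈ q.s → (i, ξ) ∉ p.s → (i, a) ∈ p.f →
      Vld (Le e i.1) i.2.1 (e a) → Mem (Le e i.1) (e a) ξ q := by
  unfold Le
  rw [WellFounded.fix_eq]
  rfl

/-- the coordinates of `p` -/
def Dm (p : Cd K Γ L) : Set (Co K Γ L) := {i | (∃ ξ, (i, ξ) ∈ p.s) ∨ ∃ a, (i, a) ∈ p.f}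

/-- same coherent sequence, same sets on the common coordinates -/
def Agr (p q : Cd K Γ L) : Prop :=
  p.t = q.t ∧ ∀ i ∈ Dm p, i ∈ Dm q → ∀ ξ, ((i, ξ) ∈ p.s ↔ (i, ξ) ∈ q.s)

/-- `p` and `q` have the same coordinates below `γ` -/
def Ag (γ : Γ) (p q : Cd K Γ L) : Prop :=
  p.t = q.t ∧ ∀ i : Co K Γ L, i.1 < γ →
    (∀ ξ, ((i, ξ) ∈ p.s ↔ (i, ξ) ∈ q.s)) ∧ ∀ a, ((i, a) ∈ p.f ↔ (i, a) ∈ q.f)

/-- all coordinates of `p` are below `γ` -/
def Bel (γ : Γ) (p : Cd K Γ L) : Prop :=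
  (∀ (i : Co K Γ L) ξ, (i, ξ) ∈ p.s → i.1 < γ) ∧ ∀ (i : Co K Γ L) a, (i, a) ∈ p.f → i.1 < γ

/-- the node `x` belongs to the tree of `t` -/
def InT (x : Nd K) (t : Tp K) : Prop := x.1 ≤ t.ht ∧ ∀ a ≤ x.1, LimK a → Eqs a x.2 (t.x a)

/-- every small name of a subset of `K` has a label -/
def Enu (e : L → K → Set (Cd K Γ L)) : Prop :=
  ∀ A : K → Set (Cd K Γ L), (∀ ξ, #(A ξ) ≤ 2 ^ #K) → ∃ a, e a = A

/-- the hypothesis on `K` -/
def Ind (K Γ L : Type u) [LinearOrder K] : Prop :=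
  ∀ le : Rd K Γ L → Rd K Γ L → Prop, (∀ p, le p p) → (∀ p q r, le p q → le q r → le p r) →
    DirCl le #K → ∃ U : (K → Set (Rd K Γ L)) → Rd K Γ L → Prop, IsUF le U

end Pool.Agent.PolF
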