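import Pool.Agent.Lib.PolF.Uni

/-!
# Dir: the conditions with branches are `#K`-directed closed

PROOF. `D` directed for `Rle (Le e γ)`. `uni_ex` (with `Le_tp`) gives `m`. Claim: `Le e β m.p d.p` for all
`β ≤ γ`, `d ∈ D`, by strong induction on `β`. `Le_iff`: the first three clauses are clear. Last clause:
`i.1 < β`, `(i, ξ) ∈ m.p.s`, `(i, ξ) ∉ d.p.s`, `(i, a) ∈ d.p.f`; `(i, ξ) ∈ d1.p.s` for some `d1 ∈ D`; take
`d2 ∈ D` below `d` and `d1` for `Rle (Le e γ)`. Then `(i, ξ) ∈ d2.p.s` (as `i.1 < γ`), so (clause of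
`Le e γ d2.p d.p`) `Mem (Le e i.1) (e a) ξ d2.p`; by induction `Le e i.1 m.p d2.p`; `Mem_down`.
`dirT`: `D` is directed for every `Rle (Le e γ)`; the same `m` (given by `uni_ex`) works for all `γ`
(make the claim a lemma on `m`).
-/

set_option autoImplicit false
set_option linter.unusedSectionVars false
universe u

namespace Pool.Agent.PolF

open Cardinal

variable {K Γ L : Type u} [LinearOrder K] [WellFoundedLT K] [LinearOrder Γ] [WellFoundedLT Γ]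
  [LinearOrder L] [WellFoundedLT L]

private theorem dir_aux (e : L → K → Set (Cd K Γ L)) (γ : Γ) (D : Set (Rd K Γ L))
    (hd : ∀ p ∈ D, ∀ q ∈ D, ∃ r ∈ D, Rle (Le e γ) r p ∧ Rle (Le e γ) r q) (m : Rd K Γ L)
    (h1 : ∀ d ∈ D, TpE m.p.t d.p.t ∧ ∀ x < d.p.t.ht, m.F x = d.F x)
    (h2 : ∀ z, z ∈ m.p.s ↔ ∃ d ∈ D, z ∈ d.p.s) (h3 : ∀ z, z ∈ m.p.f ↔ ∃ d ∈ D, z ∈ d.p.f)
    (β : Γ) : β ≤ γ → ∀ d ∈ D, Le e β m.p d.p := by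
  induction β using WellFoundedLT.induction with
  | ind β ih =>
  intro hβ d hdD
  rw [Le_iff]
  refine ⟨(h1 d hdD).1, fun i ξ _ h => (h2 _).2 ⟨d, hdD, h⟩, fun i a _ h => (h3 _).2 ⟨d, hdD, h⟩,
    fun i hi ξ a hm hn ha hv => ?_⟩
  obtain ⟨d1, hd1, hs1⟩ := (h2 _).1 hm
  obtain ⟨d2, hd2, hr, hr1⟩ := hd d hdD d1 hd1
  have hi' : i.1 < γ := hi.trans_le hβ
  have e1 := (Le_iff e γ d2.p d1.p).1 hr1.1
  have e2 := (Le_iff e γ d2.p d.p).1 hr.1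
  exact Mem_down (Le_trans i.1) (ih i.1 hi hi'.le d2 hd2)
    (e2.2.2.2 i hi' ξ a (e1.2.1 i ξ hi' hs1) hn ha hv)

theorem dirR (hK : InO K) (e : L → K → Set (Cd K Γ L)) (γ : Γ) :
    DirCl (Rle (Le e γ)) #K := by
  intro D hne hc hd
  obtain ⟨m, h1, h2, h3⟩ := uni_ex hK D hne hc fun p hp q hq => by
    obtain ⟨r, hr, hrp, hrq⟩ := hd p hp q hq
    exact ⟨r, hr, ⟨Le_tp hrp.1, hrp.2⟩, ⟨Le_tp hrq.1, hrq.2⟩⟩
  exact ⟨m, fun d hdD => ⟨dir_aux e γ D hd m h1 h2 h3 γ le_rfl d hdD, (h1 d hdD).2⟩⟩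

theorem dirT (hK : InO K) [Nonempty Γ] (e : L → K → Set (Cd K Γ L)) :
    DirCl (Rle (LeT e)) #K := by
  intro D hne hc hd
  obtain ⟨γ0⟩ := ‹Nonempty Γ›
  obtain ⟨m, h1, h2, h3⟩ := uni_ex hK D hne hc fun p hp q hq => by
    obtain ⟨r, hr, hrp, hrq⟩ := hd p hp q hq
    exact ⟨r, hr, ⟨Le_tp (hrp.1 γ0), hrp.2⟩, ⟨Le_tp (hrq.1 γ0), hrq.2⟩⟩
  refine ⟨m, fun d hdD => ⟨fun γ => dir_aux e γ D (fun p hp q hq => ?_) m h1 h2 h3 γ le_rfl d hdD,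
    (h1 d hdD).2⟩⟩
  obtain ⟨r, hr, hrp, hrq⟩ := hd p hp q hq
  exact ⟨r, hr, ⟨hrp.1 γ, hrp.2⟩, ⟨hrq.1 γ, hrq.2⟩⟩

end Pool.Agent.PolF
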