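import Pool.Agent.Lib.PolF.Dir

/-!
# Dis: distributivity

PROOF. `dist_gen`: well-order `ι` by a relation (`exists_wellOrder`, or transport: `ι` is in bijection with
`(#ι).ord.ToType`). Define `g : ι → R` by well-founded recursion: `g i` = some `r` with `le r p`, `D i r` and
`le r (g j)` for all `j < i`, if there is one (`Classical.choice`), `p` otherwise. By induction there is one: the
set `{p} ∪ {g j | j < i}` is nonempty, has fewer than `κ` elements and is directed (a chain:
`g k ≤ g j ≤ p` for `j < k`), so it has a lower bound, and below it an element of `D i`. Finally a lower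
bound of `{p} ∪ range g`. `dist`: `br_top` gives `r0 : Rd` over `p`; apply `dist_gen` to `Rle (LeT e)` (`dirT`,
`Rle_refl`, `Rle_trans`, `hK.unc`) with `D i r.p`; density: `q.p` has an extension `r` in `D i` (`LeT`), and `proj`
gives `r1` over `r` with `Rle r1 q`.
-/

set_option autoImplicit false
set_option linter.unusedSectionVars false
universe u

namespace Pool.Agent.PolF

open Cardinal

variable {K Γ L : Type u} [LinearOrder K] [WellFoundedLT K] [LinearOrder Γ] [WellFoundedLT Γ]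
  [LinearOrder L] [WellFoundedLT L]

theorem dist_gen {R : Type u} {le : R → R → Prop} (hr : ∀ p, le p p)
    (ht : ∀ p q r, le p q → le q r → le p r) {κ : Cardinal.{u}} (h0 : ℵ₀ ≤ κ) (hd : DirCl le κ)
    {ι : Type u} (hι : #ι < κ) (D : ι → R → Prop) (ho : ∀ i p q, le q p → D i p → D i q) (p : R)
    (hD : ∀ i q, le q p → ∃ r, le r q ∧ D i r) : ∃ q, le q p ∧ ∀ i, D i q := by
  classical
  obtain ⟨lo, wf⟩ := exists_wellFoundedLT ι
  let step : ∀ i : ι, (∀ j, j < i → R) → R := fun i ih =>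
    if h : ∃ r, le r p ∧ D i r ∧ ∀ j (hj : j < i), le r (ih j hj) then h.choose else p
  let g : ι → R := (wellFounded_lt : WellFounded ((· < ·) : ι → ι → Prop)).fix step
  have hg : ∀ i, g i = step i fun j _ => g j := fun i => WellFounded.fix_eq _ _ i
  -- lower bounds of chains
  have key : ∀ S : Set ι, (∀ i ∈ S, le (g i) p ∧ D i (g i) ∧ ∀ j < i, le (g i) (g j)) →
      ∃ r, le r p ∧ ∀ i ∈ S, le r (g i) := by
    intro S hS
    obtain ⟨r, hr'⟩ := hd (insert p (g '' S)) ⟨p, Set.mem_insert _ _⟩ (by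
      refine (mk_insert_le).trans_lt (add_lt_of_lt h0 ?_ (one_lt_aleph0.trans_le h0))
      exact (mk_image_le.trans (mk_set_le S)).trans_lt hι) (by
      intro a ha b hb
      rcases ha with rfl | ⟨i, hi, rfl⟩
      · rcases hb with rfl | ⟨j, hj, rfl⟩
        · exact ⟨_, Set.mem_insert _ _, hr _, hr _⟩
        · exact ⟨g j, Set.mem_insert_of_mem _ ⟨j, hj, rfl⟩, (hS j hj).1, hr _⟩
      · rcases hb with rfl | ⟨j, hj, rfl⟩
        · exact ⟨g i, Set.mem_insert_of_mem _ ⟨i, hi, rfl⟩, hr _, (hS i hi).1⟩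
        · rcases lt_trichotomy i j with hij | hij | hij
          · exact ⟨g j, Set.mem_insert_of_mem _ ⟨j, hj, rfl⟩, (hS j hj).2.2 i hij, hr _⟩
          · subst hij
            exact ⟨g i, Set.mem_insert_of_mem _ ⟨i, hi, rfl⟩, hr _, hr _⟩
          · exact ⟨g i, Set.mem_insert_of_mem _ ⟨i, hi, rfl⟩, hr _, (hS i hi).2.2 j hij⟩)
    exact ⟨r, hr' p (Set.mem_insert _ _), fun i hi => hr' _ (Set.mem_insert_of_mem _ ⟨i, hi, rfl⟩)⟩
  have hall : ∀ i, le (g i) p ∧ D i (g i) ∧ ∀ j < i, le (g i) (g j) := by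
    intro i
    induction i using WellFoundedLT.induction with
    | ind i ih =>
    obtain ⟨r0, h1, h2⟩ := key {j | j < i} (fun j hj => ih j hj)
    obtain ⟨r, h3, h4⟩ := hD i r0 h1
    have hex : ∃ r, le r p ∧ D i r ∧ ∀ j (hj : j < i), le r (g j) :=
      ⟨r, ht _ _ _ h3 h1, h4, fun j hj => ht _ _ _ h3 (h2 j hj)⟩
    have e1 : g i = hex.choose := by
      rw [hg i]
      exact dif_pos hex
    rw [e1]
    exact hex.choose_spec
  obtain ⟨q, h1, h2⟩ := key Set.univ (fun i _ => hall i)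
  exact ⟨q, h1, fun i => ho i _ _ (h2 i (Set.mem_univ _)) (hall i).2.1⟩

/-- fewer than `#K` dense sets can be met at the same time -/
theorem dist (hK : InO K) [Nonempty Γ] (e : L → K → Set (Cd K Γ L)) {ι : Type u} (hι : #ι < #K)
    (D : ι → Cd K Γ L → Prop) (ho : ∀ i p q, LeT e q p → D i p → D i q) (p : Cd K Γ L)
    (hD : ∀ i q, LeT e q p → ∃ r, LeT e r q ∧ D i r) : ∃ q, LeT e q p ∧ ∀ i, D i q := by
  obtain ⟨γ0⟩ := (inferInstance : Nonempty Γ)
  have htp : ∀ p q : Cd K Γ L, LeT e p q → TpE p.t q.t := fun p q h => Le_tp (h γ0)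
  obtain ⟨r0, rfl⟩ := br_top p
  obtain ⟨q, h1, h2⟩ := dist_gen (R := Rd K Γ L) (le := Rle (LeT e)) (Rle_refl (LeT_refl e))
    (Rle_trans (LeT_trans e) htp) hK.unc.le (dirT hK e) hι (fun i r => D i r.p)
    (fun i a b hab ha => ho i _ _ hab.1 ha) r0 (by
      intro i q hq
      obtain ⟨r, hr, hDr⟩ := hD i q.p hq.1
      obtain ⟨r', hr', hF, -⟩ := proj q r (htp _ _ hr) q.p.t.ht true
      refine ⟨r', ⟨?_, hF⟩, ?_⟩
      · rw [hr']
        exact hr
      · show D i r'.p
        rw [hr']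
        exact hDr)
  exact ⟨q.p, h1.1, h2⟩

end Pool.Agent.PolF
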