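import Pool.Agent.Lib.PolF.Dis

/-!
# Frk: `K` is forced to be regular

`dist` for `ι = Set.Iio t`, `D i r = ∃ x, Mem (LeT e) f (i, x) r`: some `r ≤ q` decides all the values;
a strict upper bound of the values is as required.
-/

set_option autoImplicit false
set_option linter.unusedSectionVars false
universe u

namespace Pool.Agent.PolF

open Cardinal

variable {K Γ L : Type u} [LinearOrder K] [WellFoundedLT K] [LinearOrder Γ] [WellFoundedLT Γ]
  [LinearOrder L] [WellFoundedLT L]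

theorem freg_K (hK : InO K) [Nonempty Γ] (e : L → K → Set (Cd K Γ L)) : FReg (LeT e) K := by
  intro t f p hex hun q hqp
  have htr := LeT_trans e
  obtain ⟨r, hrq, hr⟩ := dist hK e (ι := Set.Iio t) (hK.iio t)
    (fun i r => ∃ x, Mem (LeT e) f (i.1, x) r)
    (fun i p q hqp ⟨x, hx⟩ => ⟨x, Mem_down htr hqp hx⟩) q (by
      intro i r hr
      exact hex i.1 i.2 r (htr _ _ _ hr hqp))
  choose x hx using hr
  obtain ⟨b, hb⟩ := hK.bdd (Set.range x) (lt_of_le_of_lt mk_range_le (hK.iio t))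
  refine ⟨r, hrq, b, ?_⟩
  intro i hi y hy s hs hm
  have hxy : x ⟨i, hi⟩ ≠ y := ne_of_lt (lt_of_lt_of_le (hb _ ⟨⟨i, hi⟩, rfl⟩) hy)
  exact hun i hi _ _ hxy s (htr _ _ _ hs (htr _ _ _ hrq hqp))
    ⟨Mem_down htr hs (hx ⟨i, hi⟩), hm⟩

end Pool.Agent.PolF
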