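import Pool.Agent.Lib.PolF.Ccc
import Pool.Agent.Lib.PolF.Ama
import Pool.Agent.Lib.PolF.Cmp

/-!
# Nic: small names

PROOF. Let `le` be `Le e γ` or `LeT e`, `D = {d | ∃ a ∈ A ξ, le d a}`, `D0 ⊆ D` from `cc`. Then
`Mem le D0 ξ p ↔ Mem le A ξ p`: (→) an element of `D0` is below an element of `A ξ`. (←) if `r ≤ q`,
`r ≤ a ∈ A ξ` then `r ∈ D`, `Agr r d0` for some `d0 ∈ D0`, `Agr_compat` gives `r1 ≤ r`, `r1 ≤ d0`.
`nice_stage`, `nice_tot`: label `a` of the name `ξ ↦ D0` by `hE`. `nice_bel`: with `le = LeT e`: the set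
of the stages `i.1` of the coordinates `i ∈ Dm d`, `d ∈ D0 ξ`, `ξ : K`, has at most `2 ^ #K` elements, so it is bounded
by some `γ` (`hB.gbdd`); then all elements of the `D0 ξ` are `Bel γ` and `Mem_stage` applies, `A = D0`.
-/

set_option autoImplicit false
set_option linter.unusedSectionVars false
universe u

namespace Pool.Agent.PolF

open Cardinal

variable {K Γ L : Type u} [LinearOrder K] [WellFoundedLT K] [LinearOrder Γ] [WellFoundedLT Γ]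
  [LinearOrder L] [WellFoundedLT L]

private theorem nic_core (hK : InO K) {le : Cd K Γ L → Cd K Γ L → Prop} (_hr : ∀ p, le p p)
    (ht : ∀ p q r, le p q → le q r → le p r)
    (hcomp : ∀ p q : Cd K Γ L, Agr p q → ∃ r, le r p ∧ le r q) (A : K → Set (Cd K Γ L)) :
    ∃ D0 : K → Set (Cd K Γ L), (∀ ξ, #(D0 ξ) ≤ 2 ^ #K) ∧
      ∀ ξ p, Mem le D0 ξ p ↔ Mem le A ξ p := by
  choose D0 hsub hcard hagr using fun ξ => cc hK {d : Cd K Γ L | ∃ a ∈ A ξ, le d a}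
  refine ⟨D0, hcard, fun ξ p => ⟨fun h q hq => ?_, fun h q hq => ?_⟩⟩
  · obtain ⟨r, hrq, d, hd, hrd⟩ := h q hq
    obtain ⟨a, ha, hda⟩ := hsub ξ hd
    exact ⟨r, hrq, a, ha, ht _ _ _ hrd hda⟩
  · obtain ⟨r, hrq, a, ha, hra⟩ := h q hq
    obtain ⟨d0, hd0, hag⟩ := hagr ξ r ⟨a, ha, hra⟩
    obtain ⟨r1, h1, h2⟩ := hcomp r d0 hag
    exact ⟨r1, ht _ _ _ h1 hrq, d0, hd0, h2⟩

theorem nice_stage (hK : InO K) {e : L → K → Set (Cd K Γ L)} (hE : Enu e) (γ : Γ)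
    (A : K → Set (Cd K Γ L)) :
    ∃ a : L, ∀ ξ p, Mem (Le e γ) (e a) ξ p ↔ Mem (Le e γ) A ξ p := by
  obtain ⟨D0, hc, h⟩ := nic_core hK (Le_refl e γ) (Le_trans γ) (fun p q hpq => by
    obtain ⟨r, hr⟩ := Agr_compat hK hpq
    exact ⟨r, hr e γ⟩) A
  obtain ⟨a, ha⟩ := hE D0 hc
  exact ⟨a, fun ξ p => by rw [ha]; exact h ξ p⟩

private theorem nic_compT (hK : InO K) (e : L → K → Set (Cd K Γ L)) (p q : Cd K Γ L)
    (hpq : Agr p q) : ∃ r, LeT e r p ∧ LeT e r q := by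
  obtain ⟨r, hr⟩ := Agr_compat hK hpq
  exact ⟨r, fun γ => (hr e γ).1, fun γ => (hr e γ).2⟩

theorem nice_tot (hK : InO K) {e : L → K → Set (Cd K Γ L)} (hE : Enu e)
    (A : K → Set (Cd K Γ L)) :
    ∃ a : L, ∀ ξ p, Mem (LeT e) (e a) ξ p ↔ Mem (LeT e) A ξ p := by
  obtain ⟨D0, hc, h⟩ := nic_core hK (LeT_refl e) (LeT_trans e) (nic_compT hK e) A
  obtain ⟨a, ha⟩ := hE D0 hc
  exact ⟨a, fun ξ p => by rw [ha]; exact h ξ p⟩

private theorem nic_stages (hK : InO K) (d : Cd K Γ L) :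
    #((fun i : Co K Γ L => i.1) '' Dm d : Set Γ) ≤ 2 ^ #K := by
  have h0 : ℵ₀ ≤ 2 ^ #K := hK.unc.le.trans (Cardinal.cantor _).le
  have h1 : Dm d ⊆ ((fun z : Co K Γ L × K => z.1) '' d.s) ∪ ((fun z : Co K Γ L × L => z.1) '' d.f) := by
    rintro i (⟨ξ, h⟩ | ⟨a, h⟩)
    · exact Or.inl ⟨(i, ξ), h, rfl⟩
    · exact Or.inr ⟨(i, a), h, rfl⟩
  refine Cardinal.mk_image_le.trans ((Cardinal.mk_le_mk_of_subset h1).trans
    ((Cardinal.mk_union_le _ _).trans ?_))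
  refine Cardinal.add_le_of_le h0 ?_ ?_
  · exact Cardinal.mk_image_le.trans (d.hs.le.trans (Cardinal.cantor _).le)
  · exact Cardinal.mk_image_le.trans (d.hf.le.trans (Cardinal.cantor _).le)

theorem nice_bel (hK : InO K) (hB : Big K Γ L) (e : L → K → Set (Cd K Γ L))
    (A : K → Set (Cd K Γ L)) :
    ∃ (γ : Γ) (A' : K → Set (Cd K Γ L)), ∀ ξ p, Mem (LeT e) A ξ p ↔ Mem (Le e γ) A' ξ p := by
  have h0 : ℵ₀ ≤ 2 ^ #K := hK.unc.le.trans (Cardinal.cantor _).le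
  obtain ⟨D0, hc, h⟩ := nic_core hK (LeT_refl e) (LeT_trans e) (nic_compT hK e) A
  have hS : #(⋃ z : (Σ ξ : K, D0 ξ), ((fun i : Co K Γ L => i.1) '' Dm z.2.1 : Set Γ) : Set Γ)
      ≤ 2 ^ #K := by
    refine (Cardinal.mk_iUnion_le_sum_mk).trans ?_
    refine (Cardinal.sum_le_sum _ (fun _ => 2 ^ #K) (fun z : (Σ ξ : K, D0 ξ) => nic_stages hK z.2.1)).trans ?_
    rw [Cardinal.sum_const']
    refine Cardinal.mul_le_of_le h0 ?_ le_rfl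
    rw [Cardinal.mk_sigma]
    refine (Cardinal.sum_le_sum _ (fun _ => 2 ^ #K) (fun z => hc z)).trans ?_
    rw [Cardinal.sum_const']
    exact Cardinal.mul_le_of_le h0 (Cardinal.cantor _).le le_rfl
  obtain ⟨γ, hγ⟩ := hB.gbdd _ hS
  refine ⟨γ, D0, fun ξ p => ?_⟩
  rw [← h ξ p]
  refine Mem_stage hK (fun ξ' d hd => ⟨fun i ζ hi => ?_, fun i a hi => ?_⟩) ξ p
  · exact hγ _ (Set.mem_iUnion.2 ⟨⟨ξ', d, hd⟩, i, Or.inl ⟨ζ, hi⟩, rfl⟩)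
  · exact hγ _ (Set.mem_iUnion.2 ⟨⟨ξ', d, hd⟩, i, Or.inr ⟨a, hi⟩, rfl⟩)

end Pool.Agent.PolF
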