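import Pool.Agent.Lib.PolF.Nic
import Pool.Agent.Lib.PolF.Ufl

/-!
# Rea: the generic sets reap

PROOF. `nice_bel`: `γ`, `A` with `Mem (LeT e) S ξ p ↔ Mem (Le e γ) A ξ p`. `br_top`: `r0 : Rd` with
`r0.p = p`. Let `V = UFof (Le e γ)`, `hV = UF_stage`. `hV.ultra (emb A) r0`: `r1 ≤ r0` (`Rle (Le e γ)`) with (a)
`V (emb A) r1` or (b) `V (Cmpl (emb A)) r1`. Let `q1 = r1.p`, `x = (q1.t.ht, r1.F)` (so `ExtN x r1`),
`T ξ r` = `Mem (Le e γ) A ξ r` in case (a), `Neg (Le e γ) (Mem (Le e γ) A ξ) r` in case (b).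
`Z ξ = {r | (Le e γ r q1 ∧ T ξ r) ∨ ∀ c, Le e γ c r → ¬ Le e γ c q1}`; label `a` with
`Mem (Le e γ) (e a) ξ r ↔ Mem (Le e γ) Z ξ r` (`nice_stage`).
`Vld (Le e γ) x (e a)`: let `ExtN x r`. `hV.loc`: let `r2 ≤ r`. If some `c ≤ r2.p` (`Le e γ`) has
`Le e γ c q1`: `proj` gives `r3` with `r3.p = c`, `Rle r3 r2`; `Rle (Le e γ) r3 r1` (the branch of `r3` extends
that of `r2`, which passes through `x`); `hV.down`, and `hV.up`: below `r3`, `T ξ` implies membership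
in `Z ξ`, so in `emb (e a)` (`emb_Mem`, `emb_Cmpl`). Otherwise `r2.p ∈ Z ξ` for all `ξ`, also all its extensions, and
`uf_tail` gives `V (emb (e a)) r2`.
`q`: `ama_ex` for `Le e γ q1 p` gives `m` (`Ag γ m q1`, `LeT e m p`); `q = m` with `f = insert (i0, a) m.f`,
`i0 = (γ, x, l)`; `LeT e q p` and `Le e γ q q1` (`Ag γ q q1`). `InT x q.t` (`ExtN_InT`, `q.t = q1.t`).
If `LeT e r q`, `(i0, ξ) ∈ r.s`, `∉ q.s`: clause of `Le_iff` at a stage `> γ` (`hB.gbdd` for `{γ}`):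
`Mem (Le e γ) (e a) ξ r`, so `Mem (Le e γ) Z ξ r`; as `Le e γ r q1` the second alternative of `Z` is
impossible for conditions compatible with `r`, so `T ξ` holds on a dense set below `r`; so `T ξ r` (`Mem_loc`; for `Neg` the
same). In case (a) `Mem (LeT e) S ξ r`; in case (b) `Neg (LeT e) (Mem (LeT e) S ξ) r` as `LeT` implies `Le e γ`.
`v = true` in case (a).
-/

set_option autoImplicit false
set_option linter.unusedSectionVars false
universe u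

namespace Pool.Agent.PolF

open Cardinal

variable {K Γ L : Type u} [LinearOrder K] [WellFoundedLT K] [LinearOrder Γ] [WellFoundedLT Γ]
  [LinearOrder L] [WellFoundedLT L]

private theorem rea_core (hK : InO K) (hB : Big K Γ L) (hI : Ind K Γ L)
    {e : L → K → Set (Cd K Γ L)} (hE : Enu e) (l : L) (γ : Γ) (p : Cd K Γ L)
    (T : K → Cd K Γ L → Prop) (hTd : ∀ ξ r r', Le e γ r' r → T ξ r → T ξ r')
    (hTl : ∀ ξ p, (∀ q, Le e γ q p → ∃ r, Le e γ r q ∧ T ξ r) → T ξ p)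
    (W : K → Set (Rd K Γ L)) (hW : ∀ ξ r, Mem (Rle (Le e γ)) W ξ r → T ξ r.p)
    (r1 : Rd K Γ L) (hr1 : Le e γ r1.p p) (hV1 : UFof (Le e γ) W r1) :
    ∃ q : Cd K Γ L, LeT e q p ∧ ∃ x : Nd K, InT x q.t ∧
      ∀ r, LeT e r q → ∀ ξ, (((γ, x, l) : Co K Γ L), ξ) ∈ r.s →
        (((γ, x, l) : Co K Γ L), ξ) ∉ q.s → T ξ r := by
  have hV := UF_stage hK hI e γ
  have htr : ∀ p q r : Cd K Γ L, Le e γ p q → Le e γ q r → Le e γ p r := Le_trans γ
  have hrf : ∀ p : Cd K Γ L, Le e γ p p := Le_refl e γ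
  obtain ⟨x, hx⟩ : ∃ x : Nd K, x = (r1.p.t.ht, r1.F) := ⟨_, rfl⟩
  have hext : ExtN x r1 := by
    rw [hx]
    exact ⟨le_refl _, fun _ _ => rfl⟩
  let Z : K → Set (Cd K Γ L) := fun ξ =>
    {r | (Le e γ r r1.p ∧ T ξ r) ∨ ∀ c, Le e γ c r → ¬ Le e γ c r1.p}
  obtain ⟨a, ha⟩ := nice_stage hK hE γ Z
  have hin : ∀ ξ (r : Cd K Γ L), r ∈ Z ξ → Mem (Le e γ) (e a) ξ r := by
    intro ξ r hr
    rw [ha]
    exact fun q hq => ⟨q, hrf q, r, hr, hq⟩
  have hvld : Vld (Le e γ) x (e a) := by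
    intro r hxr
    refine hV.loc _ _ fun r2 hr2 => ?_
    by_cases hc : ∃ c, Le e γ c r2.p ∧ Le e γ c r1.p
    · obtain ⟨c, hc2, hc1⟩ := hc
      obtain ⟨r3, h3p, h3F, -⟩ := proj r2 c (Le_tp hc2) c.t.ht false
      have h32 : Rle (Le e γ) r3 r2 := ⟨by rw [h3p]; exact hc2, h3F⟩
      have h31 : Rle (Le e γ) r3 r1 := by
        refine ⟨by rw [h3p]; exact hc1, fun y hy => ?_⟩
        have hx1 : x.1 = r1.p.t.ht := by rw [hx]
        have hx2 : x.2 = r1.F := by rw [hx]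
        have hyx : y < x.1 := by rw [hx1]; exact hy
        have hyr : y < r.p.t.ht := hyx.trans_le hxr.1
        have hyr2 : y < r2.p.t.ht := hyr.trans_le (Le_tp hr2.1).1
        rw [h3F y hyr2, hr2.2 y hyr, hxr.2 y hyx, hx2]
      refine ⟨r3, h32, hV.up W _ r3 (hV.down _ _ _ h31 hV1) fun ξ r4 hr4 hm => ?_⟩
      rw [emb_Mem]
      exact hin ξ r4.p (Or.inl ⟨htr _ _ _ hr4.1 h31.1, hW ξ r4 hm⟩)
    · push Not at hc
      refine ⟨r2, Rle_refl hrf r2, ?_⟩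
      refine uf_tail (Rle_refl hrf) (Rle_trans htr fun p q h => Le_tp h) hV r2.p.t.ht _ _
        fun ξ _ => ?_
      rw [emb_Mem]
      exact hin ξ r2.p (Or.inr hc)
  obtain ⟨m, hm1, hm2, -, -⟩ := ama_ex hK hr1
  obtain ⟨i0, hi0⟩ : ∃ i : Co K Γ L, i = (γ, x, l) := ⟨_, rfl⟩
  have hcard : #(insert (i0, a) m.f : Set (Co K Γ L × L)) < #K := by
    refine lt_of_le_of_lt (Cardinal.mk_insert_le) ?_
    exact Cardinal.add_lt_of_lt hK.unc.le m.hf (Cardinal.one_lt_aleph0.trans hK.unc)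
  let q : Cd K Γ L := ⟨m.t, m.s, insert (i0, a) m.f, m.hs, hcard⟩
  have hqm : LeT e q m := by
    intro δ
    rw [Le_iff]
    exact ⟨TpE_refl _, fun _ _ _ h => h, fun _ _ _ h => Set.mem_insert_of_mem _ h,
      fun _ _ _ _ h h' => absurd h h'⟩
  have hq1 : Le e γ q r1.p := by
    refine htr _ _ _ (hqm γ) (Ag_Le hm1)
  refine ⟨q, LeT_trans e _ _ _ hqm hm2, x, ?_, ?_⟩
  · have h1 : q.t = r1.p.t := hm1.1
    rw [h1]
    exact ExtN_InT x r1 hext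
  · intro r hr ξ hξ hξq
    obtain ⟨γ2, hγ2⟩ := hB.gbdd {γ} (by
      rw [Cardinal.mk_singleton]
      exact (Cardinal.one_lt_aleph0.le.trans hK.unc.le).trans (Cardinal.cantor _).le)
    have hγ12 : i0.1 < γ2 := by rw [hi0]; exact hγ2 γ rfl
    rw [← hi0] at hξ hξq
    have h1 := ((Le_iff e γ2 r q).1 (hr γ2)).2.2.2 i0 hγ12 ξ a hξ hξq (Set.mem_insert _ _)
      (by rw [hi0]; exact hvld)
    have h2 : Mem (Le e γ) Z ξ r := by
      rw [← ha]
      rw [hi0] at h1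
      exact h1
    refine hTl ξ r fun q' hq' => ?_
    obtain ⟨r', hr', z, hz, hr'z⟩ := h2 q' hq'
    refine ⟨r', hr', ?_⟩
    rcases hz with hz | hz
    · exact hTd ξ z r' hr'z hz.2
    · exact absurd (htr _ _ _ hr' (htr _ _ _ hq' (htr _ _ _ (hr γ) hq1))) (hz r' hr'z)

/-- every subset of `K` is almost constant on one of the generic sets -/
theorem reap (hK : InO K) (hB : Big K Γ L) (hI : Ind K Γ L) {e : L → K → Set (Cd K Γ L)}
    (hE : Enu e) (l : L) (S : K → Set (Cd K Γ L)) (p : Cd K Γ L) :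
    ∃ q : Cd K Γ L, LeT e q p ∧ ∃ (γ : Γ) (x : Nd K) (v : Bool), InT x q.t ∧
      ∀ r, LeT e r q → ∀ ξ, (((γ, x, l) : Co K Γ L), ξ) ∈ r.s →
        (((γ, x, l) : Co K Γ L), ξ) ∉ q.s →
        (v = true → Mem (LeT e) S ξ r) ∧ (v = false → Neg (LeT e) (Mem (LeT e) S ξ) r) := by
  obtain ⟨γ, A, hA⟩ := nice_bel hK hB e S
  obtain ⟨r0, hr0⟩ := br_top p
  have hV := UF_stage hK hI e γ
  have htr : ∀ p q r : Cd K Γ L, Le e γ p q → Le e γ q r → Le e γ p r := Le_trans γ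
  have hrf : ∀ p : Cd K Γ L, Le e γ p p := Le_refl e γ
  obtain ⟨r1, hr1, hor⟩ := hV.ultra (emb (Le e γ) A) r0
  have hr1p : Le e γ r1.p p := by
    have := hr1.1
    rwa [hr0] at this
  rcases hor with hV1 | hV1
  · obtain ⟨q, hq, x, hx, hall⟩ := rea_core hK hB hI hE l γ p (fun ξ r => Mem (Le e γ) A ξ r)
      (fun ξ r r' h hm => Mem_down htr h hm) (fun ξ p h => Mem_loc htr hrf h)
      (emb (Le e γ) A) (fun ξ r h => (emb_Mem e γ A ξ r).1 h) r1 hr1p hV1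
    refine ⟨q, hq, γ, x, true, hx, fun r hr ξ h1 h2 => ⟨fun _ => ?_, fun h => absurd h (by simp)⟩⟩
    rw [hA]
    exact hall r hr ξ h1 h2
  · obtain ⟨q, hq, x, hx, hall⟩ := rea_core hK hB hI hE l γ p
      (fun ξ r => Neg (Le e γ) (Mem (Le e γ) A ξ) r)
      (fun ξ r r' h hm => Neg_down htr h hm)
      (fun ξ p h q hq hm => by
        obtain ⟨r, hr, hn⟩ := h q hq
        exact hn r (hrf r) (Mem_down htr hr hm))
      (Cmpl (Rle (Le e γ)) (emb (Le e γ) A)) (fun ξ r h => (emb_Cmpl e γ A ξ r).1 h) r1 hr1p hV1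
    refine ⟨q, hq, γ, x, false, hx, fun r hr ξ h1 h2 => ⟨fun h => absurd h (by simp), fun _ => ?_⟩⟩
    intro s hs hm
    rw [hA] at hm
    exact hall r hr ξ h1 h2 s (hs γ) hm

end Pool.Agent.PolF
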