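import Pool.Agent.Lib.PolF.Brn
import Pool.Agent.Lib.PolF.Crk

/-!
# Uni: the union of a small directed set of conditions with branches

PROOF. `b` = a strict upper bound of the heights (`hK.bdd` for the image of `D`, `Cardinal.mk_image_le`).
`F x = d.F x` if some `d ∈ D` has `x < d.p.t.ht` (`Classical.choose`), `false` otherwise: by `hd` independent
of `d`. The sequence of `m`: height `b`, `x y = d.p.t.x y` if some `d ∈ D` has `y ≤ d.p.t.ht` (independent of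
`d` by `hd`), and `x y = F` otherwise. `coh`: `a < y ≤ b`, `a` limit. If `y ≤ d.p.t.ht`: `coh` of `d`. Otherwise
`x y = F`: if `a ≤ d.p.t.ht` for some `d`: `F = d.F` below `a` and `d.br`; otherwise `x a = F`,
`Eqs_refl`. Same for `br`. `m.s = ⋃ d ∈ D, d.p.s`: cardinal `< #K` because `#K` is regular: a union of
`< #K` sets of size `< #K` (`Cardinal.mk_biUnion_le`/`Cardinal.card_biUnion_lt_iff_forall_of_isRegular`, or
prove it from `hK.bdd`: the sizes `#d.p.s` are bounded by some `#(Iio b)`; `#K` is regular).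
-/

set_option autoImplicit false
set_option linter.unusedSectionVars false
universe u

namespace Pool.Agent.PolF

open Cardinal

variable {K Γ L : Type u} [LinearOrder K] [WellFoundedLT K] [LinearOrder Γ] [WellFoundedLT Γ]
  [LinearOrder L] [WellFoundedLT L]

theorem uni_ex (hK : InO K) (D : Set (Rd K Γ L)) (hne : D.Nonempty) (hc : #D < #K)
    (hd : ∀ p ∈ D, ∀ q ∈ D, ∃ r ∈ D, (TpE r.p.t p.p.t ∧ ∀ x < p.p.t.ht, r.F x = p.F x) ∧
      (TpE r.p.t q.p.t ∧ ∀ x < q.p.t.ht, r.F x = q.F x)) :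
    ∃ m : Rd K Γ L, (∀ d ∈ D, TpE m.p.t d.p.t ∧ ∀ x < d.p.t.ht, m.F x = d.F x) ∧
      (∀ z, z ∈ m.p.s ↔ ∃ d ∈ D, z ∈ d.p.s) ∧ (∀ z, z ∈ m.p.f ↔ ∃ d ∈ D, z ∈ d.p.f) := by
  classical
  have hF2 : ∀ d ∈ D, ∀ d' ∈ D, ∀ x, x < d.p.t.ht → x < d'.p.t.ht → d.F x = d'.F x := by
    intro d hdD d' hd'D x hx hx'
    obtain ⟨r, -, h1, h2⟩ := hd d hdD d' hd'D
    rw [← h1.2 x hx, h2.2 x hx']
  have hX2 : ∀ d ∈ D, ∀ d' ∈ D, ∀ y, y ≤ d.p.t.ht → y ≤ d'.p.t.ht →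
      d.p.t.x y = d'.p.t.x y := by
    intro d hdD d' hd'D y hy hy'
    obtain ⟨r, -, h1, h2⟩ := hd d hdD d' hd'D
    rw [← h1.1.2 y hy, h2.1.2 y hy']
  obtain ⟨b, hb⟩ := hK.bdd ((fun d : Rd K Γ L => d.p.t.ht) '' D)
    (Cardinal.mk_image_le.trans_lt hc)
  have hb' : ∀ d ∈ D, d.p.t.ht < b := fun d hdD => hb _ ⟨d, hdD, rfl⟩
  obtain ⟨F, hF⟩ : ∃ F : K → Bool, ∀ d ∈ D, ∀ x < d.p.t.ht, F x = d.F x := by
    refine ⟨fun x => if h : ∃ d ∈ D, x < d.p.t.ht then h.choose.F x else false,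
      fun d hdD x hx => ?_⟩
    have h : ∃ d ∈ D, x < d.p.t.ht := ⟨d, hdD, hx⟩
    simp only [dif_pos h]
    exact hF2 _ h.choose_spec.1 _ hdD _ h.choose_spec.2 hx
  obtain ⟨X, hX, hX0⟩ : ∃ X : K → K → Bool, (∀ d ∈ D, ∀ y ≤ d.p.t.ht, X y = d.p.t.x y) ∧
      ∀ y, (¬ ∃ d ∈ D, y ≤ d.p.t.ht) → X y = F := by
    refine ⟨fun y => if h : ∃ d ∈ D, y ≤ d.p.t.ht then h.choose.p.t.x y else F,
      fun d hdD y hy => ?_, fun y hy => ?_⟩
    · have h : ∃ d ∈ D, y ≤ d.p.t.ht := ⟨d, hdD, hy⟩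
      simp only [dif_pos h]
      exact hX2 _ h.choose_spec.1 _ hdD _ h.choose_spec.2 hy
    · simp only [dif_neg hy]
  have hbr : ∀ a, LimK a → Eqs a F (X a) := by
    intro a ha
    by_cases h : ∃ d ∈ D, a ≤ d.p.t.ht
    · obtain ⟨d, hdD, had⟩ := h
      obtain ⟨c, hc1, hc2⟩ := d.br a had ha
      refine ⟨c, hc1, fun x hx hxa => ?_⟩
      rw [hX d hdD a had, hF d hdD x (hxa.trans_le had)]
      exact hc2 x hx hxa
    · rw [hX0 a h]
      exact Eqs_refl ha F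
  have hcoh : ∀ y ≤ b, ∀ a < y, LimK a → Eqs a (X y) (X a) := by
    intro y _ a hay ha
    by_cases h : ∃ d ∈ D, y ≤ d.p.t.ht
    · obtain ⟨d, hdD, hyd⟩ := h
      rw [hX d hdD y hyd, hX d hdD a (hay.le.trans hyd)]
      exact d.p.t.coh y hyd a hay ha
    · rw [hX0 y h]
      exact hbr a ha
  have hs : #(⋃ d ∈ D, d.p.s : Set (Co K Γ L × K)) < #K :=
    (card_biUnion_lt_iff_forall_of_isRegular hK.reg hc).2 fun d _ => d.p.hs
  have hf : #(⋃ d ∈ D, d.p.f : Set (Co K Γ L × L)) < #K :=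
    (card_biUnion_lt_iff_forall_of_isRegular hK.reg hc).2 fun d _ => d.p.hf
  refine ⟨⟨⟨⟨b, X, hcoh⟩, _, _, hs, hf⟩, F, fun a _ ha => hbr a ha⟩, fun d hdD =>
    ⟨⟨(hb' d hdD).le, fun y hy => hX d hdD y hy⟩, fun x hx => hF d hdD x hx⟩, fun z => ?_,
    fun z => ?_⟩
  · simp only [Set.mem_iUnion, exists_prop]
  · simp only [Set.mem_iUnion, exists_prop]

end Pool.Agent.PolF
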